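import Pool.Agent.W852.HV.Defs

/-!
# Statements of the parts of the proof
-/

open MeasureTheory ProbabilityTheory Set Metric
open scoped UpperHalfPlane ENNReal

namespace HypVoronoi

/-- Points with the same distance to three distinct points of `P`. -/
def trip (P : Set ℍ) : Set ℍ :=
  {z | ∃ p ∈ P, ∃ q ∈ P, ∃ r ∈ P, p ≠ q ∧ p ≠ r ∧ q ≠ r ∧ dist z p = dist z q ∧ dist z q = dist z r}

/-- T1: cells are geodesically convex. -/
def TaskConv : Prop := ∀ (P : Set ℍ) (p a b : ℍ), a ∈ cell P p → b ∈ cell P p →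
  gseg a b ⊆ cell P p

/-- T2: there are countably many points at the same distance from three points of `P`. -/
def TaskTrip : Prop := ∀ P : Set ℍ, LocFin P → (trip P).Countable

/-- T3: two cells which meet outside `trip P` are adjacent. -/
def TaskAdj : Prop := ∀ P : Set ℍ, LocFin P → ∀ p q : P, p ≠ q → ∀ z : ℍ,
  z ∈ cell P p → z ∈ cell P q → z ∉ trip P → (graph P).Adj p q

/-- T4: cells are connected. -/
def TaskCell : Prop := ∀ (P : Set ℍ) (p : ℍ), p ∈ P → IsPreconnected (cell P p)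

/-- T5: the complement of a countable set is connected. -/
def TaskCompl : Prop := ∀ T : Set ℍ, T.Countable → IsPreconnected Tᶜ

/-- T6a: partition of a bounded Borel set into finitely many Borel pieces of small diameter. -/
def TaskPart : Prop := ∀ (S : Set ℍ), MeasurableSet S → Bornology.IsBounded S →
  ∀ ε : ℝ, 0 < ε → ∃ (n : ℕ) (A : Fin n → Set ℍ), (∀ i, MeasurableSet (A i)) ∧
    (∀ i j, i ≠ j → Disjoint (A i) (A j)) ∧ (⋃ i, A i) = S ∧
    ∀ i, ∀ x ∈ A i, ∀ y ∈ A i, dist x y ≤ ε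

/-- T6b: a pattern of exact counts in finitely many disjoint pieces of a ball occurs almost surely
at infinitely many of the translates by `k * M`. -/
def TaskInf : Prop := ∀ (n : ℕ) (A : Fin n → Set ℍ) (z0 : ℍ) (R M : ℝ),
  (∀ i, MeasurableSet (A i)) → (∀ i j, i ≠ j → Disjoint (A i) (A j)) →
  (∀ i, A i ⊆ closedBall z0 R) → 2 * (z0.im * Real.sinh R) < M →
  ∀ (Ω : Type) [MeasurableSpace Ω] (Pr : Measure Ω) [IsProbabilityMeasure Pr] (lam : ℝ)
    (Pt : Ω → Set ℍ), 0 < lam → IsPoisson Pr lam Pt →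
  ∀ᵐ ω ∂Pr, ∃ᶠ k : ℕ in Filter.atTop, ∀ i,
    (Pt ω ∩ (fun z : ℍ => ((k : ℝ) * M) +ᵥ z) '' A i).encard =
      if volume (A i) = 0 then 0 else 1

/-- T6: the pattern used in the proof occurs almost surely at infinitely many places. -/
def TaskPattern : Prop := ∀ (z0 : ℍ) (R : ℝ) (D : Set ℍ), 0 < R → IsClosed D →
  D ⊆ closedBall z0 R →
  ∃ K : ℕ, ∀ η : ℝ, 0 < η → ∃ M : ℝ, 2 * (z0.im * Real.sinh R) < M ∧
  ∀ (Ω : Type) [MeasurableSpace Ω] (Pr : Measure Ω) [IsProbabilityMeasure Pr] (lam : ℝ)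
    (Pt : Ω → Set ℍ), 0 < lam → IsPoisson Pr lam Pt →
  ∀ᵐ ω ∂Pr, ∃ᶠ k : ℕ in Filter.atTop,
    (∀ b ∈ ball z0 R, ∃ p ∈ Pt ω, dist (((k : ℝ) * M) +ᵥ b) p ≤ 1) ∧
    (∀ b ∈ interior D, ∃ p ∈ Pt ω, dist (((k : ℝ) * M) +ᵥ b) p ≤ η) ∧
    (Pt ω ∩ (fun z : ℍ => ((k : ℝ) * M) +ᵥ z) '' (closedBall z0 R \ D)).encard ≤ K

/-- T7: hyperbolic circles and their right and left halves are connected. -/
def TaskArc : Prop := ∀ (z0 : ℍ) (r : ℝ), 0 < r →
  IsPreconnected {z : ℍ | dist z z0 = r ∧ z0.re ≤ z.re} ∧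
  IsPreconnected {z : ℍ | dist z z0 = r ∧ z.re ≤ z0.re} ∧
  IsPreconnected {z : ℍ | dist z z0 = r}

end HypVoronoi
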