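import Pool.Agent.W852.HV.Basic

/-!
# Geodesics avoid the deep part of a dense disc
-/

open MeasureTheory ProbabilityTheory Set Metric
open scoped UpperHalfPlane ENNReal

namespace HypVoronoi

variable {P : Set ℍ}

theorem dist_le_of_adj {p q : P} (h : (graph P).Adj p q) {η : ℝ}
    (hs : cell P (p : ℍ) ⊆ closedBall (p : ℍ) η) : dist (p : ℍ) q ≤ 2 * η := by
  obtain ⟨z, hz1, hz2⟩ := exists_mem_of_adj h
  have h1 := hs hz1
  rw [mem_closedBall] at h1
  have h2 := dist_eq_of_mem p.2 q.2 hz1 hz2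
  have h3 : dist (p : ℍ) q ≤ dist (p : ℍ) z + dist z q := dist_triangle _ _ _
  rw [dist_comm (p : ℍ) z] at h3
  linarith

theorem dist_le_of_ring (hadj : TaskAdj) (hP : LocFin P) {C : Set ℍ} (hC : IsPreconnected C)
    (hd : Disjoint C (trip P)) {K : ℕ}
    (hK : {p : ℍ | p ∈ P ∧ (cell P p ∩ C).Nonempty}.encard ≤ K) {p q : P}
    (hp : (cell P (p : ℍ) ∩ C).Nonempty) (hq : (cell P (q : ℍ) ∩ C).Nonempty) :
    (graph P).dist p q ≤ K := by
  classical
  obtain ⟨w, hw⟩ := (induce_preconnected hadj hP hC hd ⟨p, hp⟩ ⟨q, hq⟩).exists_isPath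
  set w' := w.map (SimpleGraph.Embedding.induce _).toHom with hw'
  have h1 : (graph P).dist p q ≤ w.length := by
    have := SimpleGraph.dist_le w'
    rwa [hw', SimpleGraph.Walk.length_map] at this
  refine h1.trans ?_
  have h2 : w.support.length = w.length + 1 := w.length_support
  have h3 : w.support.Nodup := hw.support_nodup
  set ι : {p : P | (cell P (p : ℍ) ∩ C).Nonempty} → ℍ := fun a => (a.1.1 : ℍ) with hι
  have hinj : Function.Injective ι := fun a b hab => Subtype.ext (Subtype.ext hab)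
  set F : Finset ℍ := Finset.image ι w.support.toFinset with hF
  have h4 : F.card = w.length + 1 := by
    rw [hF, Finset.card_image_of_injective _ hinj, List.toFinset_card_of_nodup h3, h2]
  have h5 : (F : Set ℍ) ⊆ {p : ℍ | p ∈ P ∧ (cell P p ∩ C).Nonempty} := by
    intro z hz
    rw [hF, Finset.coe_image] at hz
    obtain ⟨a, _, rfl⟩ := hz
    exact ⟨a.1.2, a.2⟩
  have h6 := (Set.encard_le_encard h5).trans hK
  rw [Set.encard_coe_eq_coe_finsetCard, h4] at h6
  have : w.length + 1 ≤ K := by exact_mod_cast h6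
  omega

theorem cell_small (hcell : TaskCell) {o : ℍ} {ρ η : ℝ} (hη : 0 < η) (hη4 : η ≤ 1 / 4)
    (hdense : ∀ b : ℍ, dist b o ≤ ρ → ∃ p ∈ P, dist b p ≤ η) {u : ℍ} (hu : u ∈ P)
    (h : dist u o ≤ ρ - 1) : cell P u ⊆ closedBall u η := by
  refine cell_subset_of_cov hcell hu hη.le (ε := 1 / 4) (by norm_num) fun b hb => hdense b ?_
  rw [mem_ball] at hb
  have := dist_triangle b u o
  linarith

theorem entry (hcell : TaskCell) {o : ℍ} {ρ r η : ℝ} {K : ℕ} (hη : 0 < η) (hη4 : η ≤ 1 / 4)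
    (hηK : 2 * η * K ≤ ρ / 4) (hρ : 8 ≤ ρ) (hr : ρ + 2 ≤ r)
    (hcov : ∀ b : ℍ, dist b o ≤ r → ∃ p ∈ P, dist b p ≤ 1)
    (hdense : ∀ b : ℍ, dist b o ≤ ρ → ∃ p ∈ P, dist b p ≤ η)
    (u : ℕ → P) (m : ℕ) (hadj : ∀ i < m, (graph P).Adj (u i) (u (i + 1)))
    (h0 : ∃ z ∈ cell P (u 0 : ℍ), r ≤ dist z o) (hm : dist (u m : ℍ) o < ρ / 2) :
    ∃ i < m, (cell P (u i : ℍ) ∩ {z | dist z o = r}).Nonempty ∧ K < m - i := by
  classical
  set Q : ℕ → Prop := fun i => ∃ z ∈ cell P (u i : ℍ), r ≤ dist z o with hQ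
  have hmQ : ¬ Q m := by
    rintro ⟨z, hz, hzr⟩
    have h1 := cell_small hcell hη hη4 hdense (u m).2 (by linarith) hz
    rw [mem_closedBall] at h1
    have := dist_triangle z (u m : ℍ) o
    linarith
  set i := Nat.findGreatest Q m with hi
  have hiQ : Q i := Nat.findGreatest_spec (P := Q) (Nat.zero_le m) h0
  have him : i < m := by
    have h1 : i ≤ m := Nat.findGreatest_le m
    rcases h1.lt_or_eq with h2 | h2
    · exact h2
    · rw [h2] at hiQ
      exact (hmQ hiQ).elim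
  have hi1 : ¬ Q (i + 1) := Nat.findGreatest_is_greatest (Nat.lt_succ_self i) him
  obtain ⟨z, hz, hzr⟩ := hiQ
  obtain ⟨w, hw1, hw2⟩ := exists_mem_of_adj (hadj i him)
  have hwr : dist w o < r := by
    by_contra hcon
    exact hi1 ⟨w, hw2, not_lt.1 hcon⟩
  have hiv := (hcell P (u i : ℍ) (u i).2).intermediate_value hw1 hz
    (f := fun w => dist w o) (by fun_prop)
  obtain ⟨v, hv, hvr⟩ := hiv ⟨hwr.le, hzr⟩
  refine ⟨i, him, ⟨v, hv, hvr⟩, ?_⟩
  by_contra hK
  rw [not_lt] at hK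
  have hind : ∀ k : ℕ, k ≤ m - i → dist (u (m - k) : ℍ) o ≤ ρ / 2 + 2 * η * k := by
    intro k
    induction k with
    | zero => intro _; simpa using hm.le
    | succ k ih =>
      intro hk
      have hk' := ih (by omega)
      have hkK : (k : ℝ) ≤ K := by
        have : k ≤ K := by omega
        exact_mod_cast this
      have h1 : 2 * η * k ≤ 2 * η * K := by gcongr
      have hadj' : (graph P).Adj (u (m - k)) (u (m - (k + 1))) := by
        have := hadj (m - (k + 1)) (by omega)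
        rw [show m - (k + 1) + 1 = m - k by omega] at this
        exact this.symm
      have h2 := dist_le_of_adj hadj'
        (cell_small hcell hη hη4 hdense (u (m - k)).2 (by linarith))
      have h3 := dist_triangle (u (m - (k + 1)) : ℍ) (u (m - k) : ℍ) o
      rw [dist_comm (u (m - (k + 1)) : ℍ) (u (m - k) : ℍ)] at h3
      push_cast
      linarith
  have h1 := hind (m - i) le_rfl
  rw [show m - (m - i) = i by omega] at h1
  have h2 : 2 * η * ((m - i : ℕ) : ℝ) ≤ 2 * η * K := by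
    have : ((m - i : ℕ) : ℝ) ≤ K := by exact_mod_cast hK
    gcongr
  obtain ⟨p, hp, hpd⟩ := hcov v (le_of_eq hvr)
  have h3 : dist v (u i : ℍ) ≤ 1 := (hv p hp).trans hpd
  have h4 := dist_triangle v (u i : ℍ) o
  have hvr' : dist v o = r := hvr
  linarith

theorem avoid (hadjT : TaskAdj) (hcell : TaskCell) (hP : LocFin P) {o : ℍ} {ρ r η : ℝ} {K : ℕ}
    (hη : 0 < η) (hη4 : η ≤ 1 / 4)
    (hηK : 2 * η * K ≤ ρ / 4) (hρ : 8 ≤ ρ) (hr : ρ + 2 ≤ r)
    (hcov : ∀ b : ℍ, dist b o ≤ r → ∃ p ∈ P, dist b p ≤ 1)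
    (hdense : ∀ b : ℍ, dist b o ≤ ρ → ∃ p ∈ P, dist b p ≤ η)
    (hC : IsPreconnected {z : ℍ | dist z o = r}) (hd : Disjoint {z : ℍ | dist z o = r} (trip P))
    (hK : {p : ℍ | p ∈ P ∧ (cell P p ∩ {z : ℍ | dist z o = r}).Nonempty}.encard ≤ K)
    (u : ℕ → P) (n : ℕ) (hadj : ∀ i < n, (graph P).Adj (u i) (u (i + 1)))
    (hgeo : ∀ i k, i ≤ k → k ≤ n → k - i ≤ (graph P).dist (u i) (u k))
    (h0 : ∃ z ∈ cell P (u 0 : ℍ), r ≤ dist z o) (hn : ∃ z ∈ cell P (u n : ℍ), r ≤ dist z o) :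
    ∀ m ≤ n, ρ / 2 ≤ dist (u m : ℍ) o := by
  intro m hm
  by_contra hcon
  rw [not_le] at hcon
  obtain ⟨i, him, hring, hKi⟩ := entry hcell hη hη4 hηK hρ hr hcov hdense u m
    (fun i hi => hadj i (by omega)) h0 hcon
  obtain ⟨j, hj, hring', hKj⟩ := entry hcell hη hη4 hηK hρ hr hcov hdense
    (fun j => u (n - j)) (n - m)
    (fun j hj => by
      have := hadj (n - (j + 1)) (by omega)
      rw [show n - (j + 1) + 1 = n - j by omega] at this
      exact this.symm)
    (by simpa using hn) (by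
      rw [show n - (n - m) = m by omega]
      exact hcon)
  have h1 := dist_le_of_ring hadjT hP hC hd hK hring hring'
  have h2 := hgeo i (n - j) (by omega) (by omega)
  omega

end HypVoronoi
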