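import Pool.Agent.W852.HV.Stms

/-!
# Voronoi cells: basic facts
-/

open MeasureTheory ProbabilityTheory Set Metric
open scoped UpperHalfPlane ENNReal

namespace HypVoronoi

variable {P : Set ℍ}

theorem mem_cell_self (P : Set ℍ) (p : ℍ) : p ∈ cell P p := fun q _ => by
  simp [dist_nonneg]

theorem isClosed_cell (P : Set ℍ) (p : ℍ) : IsClosed (cell P p) := by
  have : cell P p = ⋂ q ∈ P, {z : ℍ | dist z p ≤ dist z q} := by
    ext z; simp [cell]
  rw [this]
  exact isClosed_biInter fun q _ => isClosed_le (by fun_prop) (by fun_prop)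

theorem exists_cell (hP : LocFin P) (hne : P.Nonempty) (z : ℍ) : ∃ p ∈ P, z ∈ cell P p := by
  obtain ⟨p0, hp0⟩ := hne
  have hfin := hP (closedBall z (dist z p0)) (isCompact_closedBall _ _)
  have hne : (P ∩ closedBall z (dist z p0)).Nonempty :=
    ⟨p0, hp0, by rw [mem_closedBall, dist_comm]⟩
  obtain ⟨p, hp, hmin⟩ := Set.exists_min_image _ (fun q => dist z q) hfin hne
  refine ⟨p, hp.1, fun q hq => ?_⟩
  by_cases hqb : q ∈ closedBall z (dist z p0)
  · exact hmin q ⟨hq, hqb⟩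
  · rw [mem_closedBall, dist_comm, not_le] at hqb
    have := hp.2
    rw [mem_closedBall, dist_comm] at this
    linarith

theorem dist_eq_of_mem {p q z : ℍ} (hp : p ∈ P) (hq : q ∈ P) (h1 : z ∈ cell P p)
    (h2 : z ∈ cell P q) : dist z p = dist z q :=
  le_antisymm (h1 q hq) (h2 p hp)

theorem locallyFinite_cell (hP : LocFin P) : LocallyFinite fun p : P => cell P (p : ℍ) := by
  intro z
  by_cases hne : P.Nonempty
  · obtain ⟨p0, hp0⟩ := hne
    refine ⟨ball z 1, ball_mem_nhds z one_pos, ?_⟩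
    have hfin := hP (closedBall z (dist z p0 + 2)) (isCompact_closedBall _ _)
    have hsub : {p : P | (cell P (p : ℍ) ∩ ball z 1).Nonempty} ⊆
        (fun p : P => (p : ℍ)) ⁻¹' (P ∩ closedBall z (dist z p0 + 2)) := by
      rintro p ⟨b, hb1, hb2⟩
      refine ⟨p.2, ?_⟩
      rw [mem_ball] at hb2
      rw [mem_closedBall]
      have h1 := hb1 p0 hp0
      have h2 : dist (p : ℍ) z ≤ dist (p : ℍ) b + dist b z := dist_triangle _ _ _
      have h3 : dist b p0 ≤ dist b z + dist z p0 := dist_triangle _ _ _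
      rw [dist_comm (p : ℍ) b] at h2
      linarith
    exact (hfin.preimage Subtype.val_injective.injOn).subset hsub
  · refine ⟨univ, Filter.univ_mem, ?_⟩
    have : IsEmpty P := by
      rw [Set.not_nonempty_iff_eq_empty] at hne
      subst hne
      infer_instance
    exact Set.toFinite _

theorem exists_mem_of_adj {p q : P} (h : (graph P).Adj p q) :
    ∃ z : ℍ, z ∈ cell P (p : ℍ) ∧ z ∈ cell P (q : ℍ) := by
  obtain ⟨_, a, b, _, hs⟩ := h
  exact ⟨a, hs (by simp [gseg])⟩

/-- The cells which meet a connected set without multiple points form a connected subgraph. -/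
theorem induce_preconnected (hadj : TaskAdj) (hP : LocFin P) {C : Set ℍ} (hC : IsPreconnected C)
    (hd : Disjoint C (trip P)) :
    ((graph P).induce {p : P | (cell P (p : ℍ) ∩ C).Nonempty}).Preconnected := by
  classical
  set M : Set P := {p : P | (cell P (p : ℍ) ∩ C).Nonempty} with hM
  intro p q
  by_contra hpq
  set S : Set P := {a : P | ∃ h : a ∈ M, ((graph P).induce M).Reachable p ⟨a, h⟩} with hS
  have hcl : ∀ S' : Set P, IsClosed (⋃ a : S', cell P ((a : P) : ℍ)) := fun S' =>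
    ((locallyFinite_cell hP).comp_injective Subtype.val_injective).isClosed_iUnion
      fun a => isClosed_cell P _
  have hpS : (p : P) ∈ S := ⟨p.2, SimpleGraph.Reachable.refl _⟩
  have hqS : (q : P) ∉ S := by
    rintro ⟨_, h⟩
    exact hpq h
  have key := isPreconnected_closed_iff.1 hC (⋃ a : S, cell P ((a : P) : ℍ))
    (⋃ a : (Sᶜ : Set P), cell P ((a : P) : ℍ)) (hcl S) (hcl Sᶜ) ?_ ?_ ?_
  · obtain ⟨z, hzC, hz1, hz2⟩ := key
    rw [mem_iUnion] at hz1 hz2
    obtain ⟨⟨a, ha⟩, hza⟩ := hz1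
    obtain ⟨⟨b, hb⟩, hzb⟩ := hz2
    have hab : a ≠ b := fun h => hb (h ▸ ha)
    have hadj' := hadj P hP a b hab z hza hzb (fun ht => (Set.disjoint_left.1 hd) hzC ht)
    obtain ⟨haM, hreach⟩ := ha
    have hbM : b ∈ M := ⟨z, hzb, hzC⟩
    refine hb ⟨hbM, hreach.trans (SimpleGraph.Adj.reachable ?_)⟩
    exact hadj'
  · intro z hz
    obtain ⟨a, ha, hza⟩ := exists_cell hP ⟨p.1, p.1.2⟩ z
    by_cases h : (⟨a, ha⟩ : P) ∈ S
    · exact Or.inl (mem_iUnion.2 ⟨⟨⟨a, ha⟩, h⟩, hza⟩)
    · exact Or.inr (mem_iUnion.2 ⟨⟨⟨a, ha⟩, h⟩, hza⟩)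
  · obtain ⟨z, hz1, hz2⟩ := p.2
    exact ⟨z, hz2, mem_iUnion.2 ⟨⟨p, hpS⟩, hz1⟩⟩
  · obtain ⟨z, hz1, hz2⟩ := q.2
    exact ⟨z, hz2, mem_iUnion.2 ⟨⟨q, hqS⟩, hz1⟩⟩

/-- Every cell contains a ball around its nucleus. -/
theorem exists_ball_subset_cell (hP : LocFin P) {p : ℍ} (hp : p ∈ P) :
    ∃ ε : ℝ, 0 < ε ∧ ball p ε ⊆ cell P p := by
  have hfin : ((P ∩ closedBall p 1) \ {p}).Finite :=
    (hP (closedBall p 1) (isCompact_closedBall _ _)).subset diff_subset
  obtain ⟨ε, hε, hlt⟩ : ∃ ε : ℝ, 0 < ε ∧ ∀ q ∈ (P ∩ closedBall p 1) \ {p}, 2 * ε ≤ dist p q := by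
    by_cases hne : ((P ∩ closedBall p 1) \ {p}).Nonempty
    · obtain ⟨q0, hq0, hmin⟩ := Set.exists_min_image _ (fun q => dist p q) hfin hne
      refine ⟨dist p q0 / 2, ?_, fun q hq => ?_⟩
      · have : p ≠ q0 := fun h => hq0.2 h.symm
        have := dist_pos.2 this
        linarith
      · have := hmin q hq
        linarith
    · refine ⟨1, one_pos, fun q hq => (hne ⟨q, hq⟩).elim⟩
  refine ⟨min ε (1 / 2), lt_min hε (by norm_num), fun z hz q hq => ?_⟩
  rw [mem_ball] at hz
  have hz1 : dist z p < ε := hz.trans_le (min_le_left _ _)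
  have hz2 : dist z p < 1 / 2 := hz.trans_le (min_le_right _ _)
  by_cases hqp : q = p
  · rw [hqp]
  have htri : dist p q ≤ dist z p + dist z q := by
    have := dist_triangle p z q
    rwa [dist_comm p z] at this
  by_cases hq1 : q ∈ closedBall p 1
  · have := hlt q ⟨⟨hq, hq1⟩, hqp⟩
    linarith
  · rw [mem_closedBall, dist_comm, not_le] at hq1
    linarith

/-- Every ball contains a point outside a given countable set. -/
theorem exists_mem_ball_not_mem {T : Set ℍ} (hT : T.Countable) (p : ℍ) {ε : ℝ} (hε : 0 < ε) :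
    ∃ z ∈ ball p ε, z ∉ T := by
  have hiso := UpperHalfPlane.isometry_vertical_line p.re
  set f : ℝ → ℍ := fun y => UpperHalfPlane.mk ⟨p.re, Real.exp y⟩ (Real.exp_pos y) with hf
  have hp : p = f (Real.log p.im) := by
    apply UpperHalfPlane.ext
    apply Complex.ext
    · simp [hf]
    · simp [hf, Real.exp_log p.im_pos]
  have hcount : (f ⁻¹' T).Countable := hT.preimage hiso.injective
  have hunc : ¬ (Ioo (Real.log p.im) (Real.log p.im + ε)).Countable := by
    intro h
    have := h.le_aleph0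
    rw [Cardinal.mk_Ioo_real (by linarith)] at this
    exact absurd this (not_le.2 Cardinal.aleph0_lt_continuum)
  obtain ⟨y, hy, hyT⟩ : ∃ y ∈ Ioo (Real.log p.im) (Real.log p.im + ε), y ∉ f ⁻¹' T := by
    by_contra hcon
    push Not at hcon
    exact hunc (hcount.mono hcon)
  refine ⟨f y, ?_, hyT⟩
  rw [mem_ball]
  conv_lhs => rw [hp]
  rw [hiso.dist_eq, Real.dist_eq, abs_lt]
  constructor <;> linarith [hy.1, hy.2]

/-- The Voronoi graph is connected. -/
theorem graph_connected (hadj : TaskAdj) (htrip : TaskTrip) (hcompl : TaskCompl) (hP : LocFin P)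
    (hne : P.Nonempty) : (graph P).Connected := by
  have hpre := induce_preconnected hadj hP (hcompl _ (htrip P hP)) disjoint_compl_left
  have hall : ∀ p : P, (cell P (p : ℍ) ∩ (trip P)ᶜ).Nonempty := by
    intro p
    obtain ⟨ε, hε, hb⟩ := exists_ball_subset_cell hP p.2
    obtain ⟨z, hz, hzT⟩ := exists_mem_ball_not_mem (htrip P hP) (p : ℍ) hε
    exact ⟨z, hb hz, hzT⟩
  have : Nonempty P := hne.to_subtype
  refine ⟨fun p q => ?_⟩
  exact (hpre ⟨p, hall p⟩ ⟨q, hall q⟩).map (SimpleGraph.Embedding.induce _).toHom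

theorem cell_subset_of_cov (hcell : TaskCell) {u : ℍ} (hu : u ∈ P) {η ε : ℝ} (hη : 0 ≤ η)
    (hε : 0 < ε) (h : ∀ b ∈ ball u (η + ε), ∃ p ∈ P, dist b p ≤ η) :
    cell P u ⊆ closedBall u η := by
  intro z hz
  rw [mem_closedBall]
  by_contra hlt
  rw [not_le] at hlt
  have hiv := (hcell P u hu).intermediate_value (mem_cell_self P u) hz
    (f := fun w => dist w u) (by fun_prop)
  set t := min (η + ε / 2) (dist z u) with ht
  have ht1 : η < t := lt_min (by linarith) hlt
  have ht2 : t ≤ η + ε / 2 := min_le_left _ _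
  have ht3 : t ≤ dist z u := min_le_right _ _
  have hmem : t ∈ Icc (dist u u) (dist z u) := by
    rw [dist_self]
    exact ⟨by linarith, ht3⟩
  obtain ⟨w, hw, hwt⟩ := hiv hmem
  have hwt' : dist w u = t := hwt
  obtain ⟨p, hp, hpd⟩ := h w (by rw [mem_ball, hwt']; linarith)
  have := hw p hp
  linarith

end HypVoronoi
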