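import Pool.Agent.W852.HV.Wind

/-!
# The deterministic argument
-/

open MeasureTheory ProbabilityTheory Set Metric
open scoped UpperHalfPlane ENNReal

namespace HypVoronoi

noncomputable section

/-- All hypotheses on the configuration used in the deterministic argument. -/
structure Conf (P : Set ℍ) (c X W ρ R r η : ℝ) (m K : ℕ) : Prop where
  locFin : LocFin P
  hW : W = 4 * m + 8
  hρ : ρ = 2 * W + 40
  hX : 0 < X
  hr1 : ρ + 2 ≤ r
  hr2 : r ≤ ρ + 3
  hη : 0 < η
  hη4 : η ≤ 1 / 4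
  hηK : 2 * η * K ≤ ρ / 4
  far : ρ / 4 + 2 * m + 2 ≤ R - 2 - dist (pt c W) (pt (c + X) W)
  o1re : ∀ z : ℍ, dist z (pt c W) ≤ ρ + 10 → z.re < c + X / 2
  o2re : ∀ z : ℍ, dist z (pt (c + X) W) ≤ ρ + 10 → c + X / 2 < z.re
  o2R : ∀ z : ℍ, dist z (pt (c + X) W) ≤ ρ + 10 → dist z (pt c W) ≤ R - 10
  o1R : ρ + 20 ≤ R
  band : ∀ z : ℍ, (c ≤ z.re ∧ z.re ≤ c + X) ∧ 0 ≤ Real.log z.im ∧ Real.log z.im ≤ W →
    dist z (pt c W) ≤ R - 10
  cov : ∀ b : ℍ, dist b (pt c W) < R → ∃ p ∈ P, dist b p ≤ 1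
  dense1 : ∀ b : ℍ, dist b (pt c W) ≤ ρ → ∃ p ∈ P, dist b p ≤ η
  dense2 : ∀ b : ℍ, dist b (pt (c + X) W) ≤ ρ → ∃ p ∈ P, dist b p ≤ η
  count : {p : ℍ | p ∈ P ∧ dist p (pt c W) ≤ R ∧ ρ + 1 ≤ dist p (pt c W) ∧
    ρ + 1 ≤ dist p (pt (c + X) W)}.encard ≤ K
  trip1 : Disjoint {z : ℍ | dist z (pt c W) = r} (trip P)
  trip2 : Disjoint {z : ℍ | dist z (pt (c + X) W) = r} (trip P)

namespace Conf

variable {P : Set ℍ} {c X W ρ R r η : ℝ} {m K : ℕ}

theorem W8 (h : Conf P c X W ρ R r η m K) : 8 ≤ W := by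
  rw [h.hW]
  have : (0 : ℝ) ≤ m := by positivity
  linarith

theorem cell_one (h : Conf P c X W ρ R r η m K) (hcell : TaskCell) {p : ℍ} (hp : p ∈ P)
    (hpR : dist p (pt c W) < R - 2) : cell P p ⊆ closedBall p 1 := by
  refine cell_subset_of_cov hcell hp zero_le_one one_pos fun b hb => h.cov b ?_
  rw [mem_ball] at hb
  have := dist_triangle b p (pt c W)
  linarith

theorem adj_two (h : Conf P c X W ρ R r η m K) (hcell : TaskCell) {p q : P}
    (hpq : (graph P).Adj p q) (hR : dist (p : ℍ) (pt c W) < R - 2 ∨ dist (q : ℍ) (pt c W) < R - 2) :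
    dist (p : ℍ) q ≤ 2 := by
  rcases hR with hR | hR
  · have := dist_le_of_adj hpq (h.cell_one hcell p.2 hR)
    linarith
  · have := dist_le_of_adj hpq.symm (h.cell_one hcell q.2 hR)
    rw [dist_comm]
    linarith

theorem near_adj (h : Conf P c X W ρ R r η m K) (hcell : TaskCell) {p q : P}
    (hpq : (graph P).Adj p q)
    (hp1 : ρ / 4 ≤ dist (p : ℍ) (pt c W)) (hp2 : ρ / 4 ≤ dist (p : ℍ) (pt (c + X) W))
    (hq1 : ρ / 4 ≤ dist (q : ℍ) (pt c W)) (hq2 : ρ / 4 ≤ dist (q : ℍ) (pt (c + X) W)) :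
    nearI (2 / W) (TT c X W q - TT c X W p) := by
  have hW8 := h.W8
  have hW0 : 0 < W := by linarith
  by_cases hR : dist (p : ℍ) (pt c W) < R - 2 ∨ dist (q : ℍ) (pt c W) < R - 2
  · exact near_two hW8 (by rw [h.hρ]; linarith) (h.adj_two hcell hpq hR) hp1 hp2 hq1 hq2
  · rw [not_or, not_lt, not_lt] at hR
    obtain ⟨n, hn⟩ : ∃ n : ℤ, TT c X W p = n := TT_int hW0 fun hb => by
      have := h.band _ hb
      linarith [hR.1]
    obtain ⟨n', hn'⟩ : ∃ n : ℤ, TT c X W q = n := TT_int hW0 fun hb => by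
      have := h.band _ hb
      linarith [hR.2]
    rw [hn, hn']
    have := nearI_int (ε := 2 / W) (by positivity) (n' - n)
    simpa using this

/-- One step of a path cannot approach one of the two centres by more than `2`. -/
theorem step_far (h : Conf P c X W ρ R r η m K) (hcell : TaskCell) {p q : P}
    (hpq : (graph P).Adj p q) {s : ℝ} (hs : s ≤ ρ / 4 + 2 * m)
    (hp1 : s + 2 ≤ dist (p : ℍ) (pt c W)) (hp2 : s + 2 ≤ dist (p : ℍ) (pt (c + X) W)) :
    s ≤ dist (q : ℍ) (pt c W) ∧ s ≤ dist (q : ℍ) (pt (c + X) W) := by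
  by_cases hR : dist (p : ℍ) (pt c W) < R - 2 ∨ dist (q : ℍ) (pt c W) < R - 2
  · have h2 := h.adj_two hcell hpq hR
    have h3 := dist_triangle (p : ℍ) q (pt c W)
    have h4 := dist_triangle (p : ℍ) q (pt (c + X) W)
    constructor <;> linarith
  · rw [not_or, not_lt, not_lt] at hR
    have h1 := h.far
    have h2 := dist_triangle (q : ℍ) (pt (c + X) W) (pt c W)
    rw [dist_comm (pt (c + X) W) (pt c W)] at h2
    have h3 : 0 ≤ dist (pt c W) (pt (c + X) W) := dist_nonneg
    constructor <;> linarith [hR.2]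

theorem near_path (h : Conf P c X W ρ R r η m K) (hcell : TaskCell) :
    ∀ (k : ℕ) (a b : P) (w : (graph P).Walk a b), w.length = k → k ≤ m →
      ρ / 4 + 2 * k ≤ dist (a : ℍ) (pt c W) → ρ / 4 + 2 * k ≤ dist (a : ℍ) (pt (c + X) W) →
      nearI (2 * k / W) (TT c X W b - TT c X W a) := by
  have hW8 := h.W8
  have hW0 : 0 < W := by linarith
  intro k
  induction k with
  | zero =>
    intro a b w hw _ _ _
    have := SimpleGraph.Walk.eq_of_length_eq_zero hw
    subst this
    have := nearI_int (ε := 0) le_rfl 0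
    simpa using this
  | succ k ih =>
    intro a b w hw hk h1 h2
    cases w with
    | nil => simp at hw
    | @cons _ a' _ hadj w' =>
      rw [SimpleGraph.Walk.length_cons] at hw
      have hkm : (k : ℝ) ≤ m := by exact_mod_cast (by omega : k ≤ m)
      push_cast at h1 h2
      have hk0 : (0 : ℝ) ≤ k := by positivity
      obtain ⟨h3, h4⟩ := h.step_far hcell hadj (s := ρ / 4 + 2 * k) (by linarith) (by linarith)
        (by linarith)
      have h5 := ih a' b w' (by omega) (by omega) h3 h4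
      have h6 := h.near_adj hcell hadj (by linarith) (by linarith) (by linarith) (by linarith)
      have h7 := nearI_add h6 h5
      have e1 : TT c X W (a' : ℍ) - TT c X W a + (TT c X W b - TT c X W (a' : ℍ)) =
          TT c X W b - TT c X W a := by ring
      rw [e1] at h7
      refine nearI_mono h7 (le_of_eq ?_)
      push_cast
      ring

/-- A vertex whose cell reaches the two circles, from outside. -/
def Outer (P : Set ℍ) (c X W r : ℝ) (v : P) : Prop :=
  (∃ z ∈ cell P (v : ℍ), r ≤ dist z (pt c W)) ∧ ∃ z ∈ cell P (v : ℍ), r ≤ dist z (pt (c + X) W)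

theorem ring_sub1 (h : Conf P c X W ρ R r η m K) :
    {p : ℍ | p ∈ P ∧ (cell P p ∩ {z : ℍ | dist z (pt c W) = r}).Nonempty}.encard ≤ K := by
  refine (Set.encard_le_encard ?_).trans h.count
  rintro p ⟨hp, z, hz, hzr⟩
  have hzr' : dist z (pt c W) = r := hzr
  have h1 := h.hr1
  have h2 := h.hr2
  have h3 := h.o1R
  obtain ⟨q, hq, hqz⟩ := h.cov z (by rw [hzr']; linarith)
  have h4 : dist z p ≤ 1 := (hz q hq).trans hqz
  have h5 := dist_triangle z p (pt c W)
  have h6 := dist_triangle p z (pt c W)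
  rw [dist_comm p z] at h6
  refine ⟨hp, by linarith, by linarith, ?_⟩
  by_contra hcon
  rw [not_le] at hcon
  have h7 := h.o1re p (by linarith)
  have h8 := h.o2re p (by linarith)
  linarith

theorem ring_sub2 (h : Conf P c X W ρ R r η m K) :
    {p : ℍ | p ∈ P ∧ (cell P p ∩ {z : ℍ | dist z (pt (c + X) W) = r}).Nonempty}.encard ≤ K := by
  refine (Set.encard_le_encard ?_).trans h.count
  rintro p ⟨hp, z, hz, hzr⟩
  have hzr' : dist z (pt (c + X) W) = r := hzr
  have h1 := h.hr1
  have h2 := h.hr2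
  have h3 := h.o2R z (by rw [hzr']; linarith)
  obtain ⟨q, hq, hqz⟩ := h.cov z (by linarith)
  have h4 : dist z p ≤ 1 := (hz q hq).trans hqz
  have h5 := dist_triangle z p (pt (c + X) W)
  have h6 := dist_triangle p z (pt (c + X) W)
  rw [dist_comm p z] at h6
  have h7 := h.o2R p (by linarith)
  refine ⟨hp, by linarith, ?_, by linarith⟩
  by_contra hcon
  rw [not_le] at hcon
  have h7 := h.o1re p (by linarith)
  have h8 := h.o2re p (by linarith)
  linarith

theorem avoid_both (h : Conf P c X W ρ R r η m K) (hadjT : TaskAdj) (hcell : TaskCell)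
    (harc : TaskArc) {a b : P} (w : (graph P).Walk a b) (hw : IsGeo w)
    (hconn : (graph P).Connected)
    (ha : Outer P c X W r a) (hb : Outer P c X W r b) (t : ℕ) :
    ρ / 2 ≤ dist (w.getVert t : ℍ) (pt c W) ∧ ρ / 2 ≤ dist (w.getVert t : ℍ) (pt (c + X) W) := by
  have h1 := h.hr1
  have h2 := h.hr2
  have hW8 := h.W8
  have hρ8 : 8 ≤ ρ := by rw [h.hρ]; linarith
  have hr0 : 0 < r := by linarith
  have hgeo : ∀ i k, i ≤ k → k ≤ w.length →
      k - i ≤ (graph P).dist (w.getVert i) (w.getVert k) := by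
    intro i k hik hk
    have e1 : (graph P).dist a (w.getVert i) ≤ i := by
      have := SimpleGraph.dist_le (w.take i)
      rw [SimpleGraph.Walk.take_length] at this
      omega
    have e2 : (graph P).dist (w.getVert k) b ≤ w.length - k := by
      have := SimpleGraph.dist_le (w.drop k)
      rw [SimpleGraph.Walk.drop_length] at this
      omega
    have e3 := hconn.dist_triangle (u := a) (v := w.getVert i) (w := b)
    have e4 := hconn.dist_triangle (u := w.getVert i) (v := w.getVert k) (w := b)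
    have e5 : w.length = (graph P).dist a b := hw
    omega
  have hred : ∀ t, ∃ t' ≤ w.length, w.getVert t = w.getVert t' := by
    intro t
    by_cases ht : t ≤ w.length
    · exact ⟨t, ht, rfl⟩
    · exact ⟨w.length, le_rfl, by
        rw [w.getVert_of_length_le (by omega), w.getVert_length]⟩
  obtain ⟨t', ht', e⟩ := hred t
  rw [e]
  constructor
  · exact avoid hadjT hcell h.locFin h.hη h.hη4 h.hηK hρ8 h1
      (fun b hb => h.cov b (by linarith [h.o1R])) h.dense1 (harc _ r hr0).2.2 h.trip1 h.ring_sub1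
      w.getVert w.length (fun i hi => w.adj_getVert_succ hi) hgeo
      (by rw [w.getVert_zero]; exact ha.1) (by rw [w.getVert_length]; exact hb.1) t' ht'
  · exact avoid hadjT hcell h.locFin h.hη h.hη4 h.hηK hρ8 h1
      (fun b hb => h.cov b (by linarith [h.o2R b (by linarith)])) h.dense2 (harc _ r hr0).2.2
      h.trip2 h.ring_sub2
      w.getVert w.length (fun i hi => w.adj_getVert_succ hi) hgeo
      (by rw [w.getVert_zero]; exact ha.2) (by rw [w.getVert_length]; exact hb.2) t' ht'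

end Conf

end

end HypVoronoi
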