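import Pool.Agent.W852.HV.Core

/-!
# The deterministic argument, second part: the contradiction on the ring
-/

open MeasureTheory ProbabilityTheory Set Metric
open scoped UpperHalfPlane ENNReal

namespace HypVoronoi

noncomputable section

/-- The sum of the increments along a walk. -/
def incSum (c X W : ℝ) {P : Set ℍ} {a b : P} (w : (graph P).Walk a b) (n : ℕ) : ℝ :=
  ∑ i ∈ Finset.range n, inc c X W (w.getVert i) (w.getVert (i + 1))

theorem incSum_of_le (c X W : ℝ) {P : Set ℍ} {a b : P} (w : (graph P).Walk a b) {n : ℕ}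
    (hn : w.length ≤ n) : incSum c X W w n = incSum c X W w w.length := by
  unfold incSum
  refine (Finset.sum_subset (Finset.range_mono hn) ?_).symm
  intro i _ hi
  rw [Finset.mem_range, not_lt] at hi
  rw [w.getVert_of_length_le hi, w.getVert_of_length_le (by omega), inc_self]

theorem inc_eq_int (c X W : ℝ) (p q : ℍ) : ∃ n : ℤ, inc c X W p q =
    TT c X W q - TT c X W p - n := ⟨_, rfl⟩

namespace Conf

variable {P : Set ℍ} {c X W ρ R r η : ℝ} {m K : ℕ}

theorem ladder (h : Conf P c X W ρ R r η m K) (hadjT : TaskAdj) (hcell : TaskCell)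
    (harc : TaskArc) (hconn : (graph P).Connected) (hm : 1 ≤ m) {x v v' : P}
    (hx : Outer P c X W r x) (hv : Outer P c X W r v) (hv' : Outer P c X W r v')
    (a : (graph P).Walk x v) (b : (graph P).Walk x v')
    (ha : IsGeo a) (hb : IsGeo b)
    (H : ∀ t, (graph P).dist (a.getVert t) (b.getVert t) ≤ m) :
    incSum c X W b b.length - incSum c X W a a.length = inc c X W v v' := by
  have hW8 := h.W8
  have hW0 : 0 < W := by linarith
  have hρ8 : 8 ≤ ρ := by rw [h.hρ]; linarith
  have hρm : ρ / 4 + 2 * m ≤ ρ / 2 := by rw [h.hρ, h.hW]; linarith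
  have hA := h.avoid_both hadjT hcell harc a ha hconn hx hv
  have hB := h.avoid_both hadjT hcell harc b hb hconn hx hv'
  have hm1 : (1 : ℝ) ≤ m := by exact_mod_cast hm
  -- rungs
  have hD : ∀ t, |inc c X W (a.getVert t) (b.getVert t)| ≤ 2 * m / W := by
    intro t
    obtain ⟨w, hw⟩ := hconn.exists_walk_length_eq_dist (a.getVert t) (b.getVert t)
    have hwm : w.length ≤ m := by rw [hw]; exact H t
    have hwm' : (w.length : ℝ) ≤ m := by exact_mod_cast hwm
    have h1 := h.near_path hcell w.length _ _ w rfl hwm (by linarith [(hA t).1])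
      (by linarith [(hA t).2])
    refine abs_inc_le (nearI_mono h1 ?_)
    gcongr
  -- sides
  have hS : ∀ {y : P} (w : (graph P).Walk x y), (∀ t, ρ / 2 ≤ dist (w.getVert t : ℍ) (pt c W) ∧
      ρ / 2 ≤ dist (w.getVert t : ℍ) (pt (c + X) W)) → ∀ t,
      |inc c X W (w.getVert t) (w.getVert (t + 1))| ≤ 2 / W := by
    intro y w hw t
    by_cases ht : t < w.length
    · refine abs_inc_le (h.near_adj hcell (w.adj_getVert_succ ht) ?_ ?_ ?_ ?_)
      · linarith [(hw t).1]
      · linarith [(hw t).2]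
      · linarith [(hw (t + 1)).1]
      · linarith [(hw (t + 1)).2]
    · rw [w.getVert_of_length_le (not_lt.1 ht), w.getVert_of_length_le (by omega), inc_self,
        abs_zero]
      positivity
  have hstep : ∀ t, inc c X W (a.getVert (t + 1)) (b.getVert (t + 1)) -
      inc c X W (a.getVert t) (b.getVert t) =
      inc c X W (b.getVert t) (b.getVert (t + 1)) -
        inc c X W (a.getVert t) (a.getVert (t + 1)) := by
    intro t
    rw [← sub_eq_zero]
    apply int_zero
    · obtain ⟨n1, e1⟩ := inc_eq_int c X W (a.getVert (t + 1)) (b.getVert (t + 1))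
      obtain ⟨n2, e2⟩ := inc_eq_int c X W (a.getVert t) (b.getVert t)
      obtain ⟨n3, e3⟩ := inc_eq_int c X W (b.getVert t) (b.getVert (t + 1))
      obtain ⟨n4, e4⟩ := inc_eq_int c X W (a.getVert t) (a.getVert (t + 1))
      refine ⟨-n1 + n2 + n3 - n4, ?_⟩
      rw [e1, e2, e3, e4]
      push_cast
      ring
    · have h1 := hD (t + 1)
      have h2 := hD t
      have h3 := hS b hB t
      have h4 := hS a hA t
      have h5 : 2 * m / W + 2 * m / W + 2 / W + 2 / W < 1 := by
        rw [← add_div, ← add_div, ← add_div, div_lt_one hW0, h.hW]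
        linarith
      rw [abs_le] at h1 h2 h3 h4
      rw [abs_lt]
      constructor <;> linarith
  set L := max a.length b.length with hL
  have htel : ∀ n, inc c X W (a.getVert n) (b.getVert n) - inc c X W (a.getVert 0) (b.getVert 0) =
      incSum c X W b n - incSum c X W a n := by
    intro n
    induction n with
    | zero => simp [incSum]
    | succ n ih =>
      have h1 := hstep n
      have e1 : incSum c X W b (n + 1) = incSum c X W b n +
          inc c X W (b.getVert n) (b.getVert (n + 1)) := by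
        unfold incSum
        rw [Finset.sum_range_succ]
      have e2 : incSum c X W a (n + 1) = incSum c X W a n +
          inc c X W (a.getVert n) (a.getVert (n + 1)) := by
        unfold incSum
        rw [Finset.sum_range_succ]
      rw [e1, e2]
      linarith
  have h1 := htel L
  rw [a.getVert_of_length_le (le_max_left _ _), b.getVert_of_length_le (le_max_right _ _),
    a.getVert_zero, b.getVert_zero, inc_self, sub_zero,
    incSum_of_le c X W b (le_max_right _ _), incSum_of_le c X W a (le_max_left _ _)] at h1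
  exact h1.symm

/-- The top point of the circle. -/
theorem dist_top (c W r : ℝ) (hr : 0 ≤ r) :
    dist (UpperHalfPlane.mk ⟨c, Real.exp (W / 2 + r)⟩ (Real.exp_pos _)) (pt c W) = r := by
  rw [UpperHalfPlane.dist_of_re_eq (by rfl)]
  simp only [UpperHalfPlane.mk_im, pt_im, Real.log_exp, Real.dist_eq]
  rw [add_sub_cancel_left, abs_of_nonneg hr]

theorem dist_bot (c W r : ℝ) (hr : 0 ≤ r) :
    dist (UpperHalfPlane.mk ⟨c, Real.exp (W / 2 - r)⟩ (Real.exp_pos _)) (pt c W) = r := by
  rw [UpperHalfPlane.dist_of_re_eq (by rfl)]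
  simp only [UpperHalfPlane.mk_im, pt_im, Real.log_exp, Real.dist_eq]
  rw [sub_sub_cancel_left, abs_neg, abs_of_nonneg hr]

theorem outer_of_ring (h : Conf P c X W ρ R r η m K) {p : P} {z : ℍ} (hz : z ∈ cell P (p : ℍ))
    (hzr : dist z (pt c W) = r) : Outer P c X W r p := by
  refine ⟨⟨z, hz, hzr.ge⟩, ⟨z, hz, ?_⟩⟩
  by_contra hcon
  rw [not_le] at hcon
  have h2 := h.hr2
  have h7 := h.o1re z (by linarith)
  have h8 := h.o2re z (by linarith)
  linarith

theorem near_ring (h : Conf P c X W ρ R r η m K) {p : P} {z : ℍ} (hz : z ∈ cell P (p : ℍ))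
    (hzr : dist z (pt c W) = r) : dist z p ≤ 1 := by
  have h2 := h.hr2
  obtain ⟨q, hq, hqz⟩ := h.cov z (by linarith [h.o1R])
  exact (hz q hq).trans hqz

/-- Final contradiction. -/
theorem false_of_thin (h : Conf P c X W ρ R r η m K) (hadjT : TaskAdj) (hcell : TaskCell)
    (harc : TaskArc) (hconn : (graph P).Connected) (hm : 1 ≤ m) {x : P}
    (hx : Outer P c X W r x)
    (H : ∀ (v v' : P), (graph P).Adj v v' → ∀ (a : (graph P).Walk x v) (b : (graph P).Walk x v'),
      IsGeo a → IsGeo b → ∀ t, (graph P).dist (a.getVert t) (b.getVert t) ≤ m) : False := by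
  classical
  have hW8 := h.W8
  have hW0 : 0 < W := by linarith
  have hr1 := h.hr1
  have hr2 := h.hr2
  have hρW : ρ = 2 * W + 40 := h.hρ
  have hr0 : 0 < r := by linarith
  choose γ hγ using fun v : P => hconn.exists_walk_length_eq_dist x v
  have hγ' : ∀ v, IsGeo (γ v) := hγ
  set Θ : P → ℝ := fun v => incSum c X W (γ v) (γ v).length with hΘ
  have hΘadj : ∀ v v' : P, (graph P).Adj v v' → Outer P c X W r v → Outer P c X W r v' →
      Θ v' - Θ v = inc c X W v v' := fun v v' hvv hv hv' =>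
    h.ladder hadjT hcell harc hconn hm hx hv hv' (γ v) (γ v') (hγ' v) (hγ' v')
      (H v v' hvv _ _ (hγ' v) (hγ' v'))
  -- distances of ring vertices from the two centres
  have hring : ∀ (p : P) (z : ℍ), z ∈ cell P (p : ℍ) → dist z (pt c W) = r →
      dist z p ≤ 1 ∧ ρ + 1 ≤ dist (p : ℍ) (pt c W) ∧ dist (p : ℍ) (pt c W) ≤ ρ + 4 ∧
      ρ + 1 ≤ dist (p : ℍ) (pt (c + X) W) ∧ (p : ℍ).re ≤ c + X := by
    intro p z hz hzr
    have h1 := h.near_ring hz hzr
    have h5 := dist_triangle z p (pt c W)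
    have h6 := dist_triangle (p : ℍ) z (pt c W)
    rw [dist_comm (p : ℍ) z] at h6
    have h7 := h.o1re p (by linarith)
    refine ⟨h1, by linarith, by linarith, ?_, by linarith [h.hX]⟩
    by_contra hcon
    rw [not_le] at hcon
    have h8 := h.o2re p (by linarith)
    linarith
  have hincring : ∀ p q : P, (graph P).Adj p q →
      (cell P (p : ℍ) ∩ {z : ℍ | dist z (pt c W) = r}).Nonempty →
      (cell P (q : ℍ) ∩ {z : ℍ | dist z (pt c W) = r}).Nonempty →
      |inc c X W p q| ≤ 2 / W ∧ |Tp W q - Tp W p| ≤ 2 / W ∧ Θ q - Θ p = inc c X W p q := by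
    rintro p q hpq ⟨z, hz, hzr⟩ ⟨z', hz', hzr'⟩
    obtain ⟨a1, a2, a3, a4, a5⟩ := hring p z hz hzr
    obtain ⟨b1, b2, b3, b4, b5⟩ := hring q z' hz' hzr'
    refine ⟨abs_inc_le (h.near_adj hcell hpq (by linarith) (by linarith) (by linarith)
      (by linarith)), ?_, hΘadj p q hpq (h.outer_of_ring hz hzr) (h.outer_of_ring hz' hzr')⟩
    refine (Tp_lip hW0 _ _).trans ?_
    have := h.adj_two hcell hpq (Or.inl (by linarith [h.o1R]))
    gcongr
  have h4W : 2 / W + 2 / W < 1 := by
    rw [← add_div, div_lt_one hW0]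
    linarith
  -- right arc
  have hR : ∀ p : P, (cell P (p : ℍ) ∩ {z : ℍ | dist z (pt c W) = r ∧ (pt c W).re ≤ z.re}).Nonempty →
      ∃ n : ℤ, TT c X W p = Tp W p + n := by
    rintro p ⟨z, hz, hzr, hzre⟩
    obtain ⟨a1, a2, a3, a4, a5⟩ := hring p z hz hzr
    by_cases hre : c ≤ (p : ℍ).re
    · refine ⟨0, ?_⟩
      unfold TT
      rw [if_pos ⟨hre, a5⟩]
      simp
    · rw [not_le] at hre
      have e1 : TT c X W p = 0 := by
        unfold TT
        rw [if_neg fun hh => absurd hh.1 (not_le.2 hre)]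
      obtain ⟨n, hn⟩ := Tp_int hW0 (z := (p : ℍ)) (by
        rintro ⟨h1, h2⟩
        have := dist_corner z p c W (Or.inr ⟨hre.le, hzre⟩) h1 h2
        linarith)
      exact ⟨-n, by rw [e1, hn]; push_cast; ring⟩
  -- left arc
  have hLft : ∀ p : P, (cell P (p : ℍ) ∩ {z : ℍ | dist z (pt c W) = r ∧ z.re ≤ (pt c W).re}).Nonempty →
      ∃ n : ℤ, TT c X W p = n := by
    rintro p ⟨z, hz, hzr, hzre⟩
    obtain ⟨a1, a2, a3, a4, a5⟩ := hring p z hz hzr
    refine TT_int hW0 ?_
    rintro ⟨⟨hre, _⟩, h1, h2⟩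
    have := dist_corner z p c W (Or.inl ⟨hzre, hre⟩) h1 h2
    linarith
  obtain ⟨harcR, harcL, _⟩ := harc (pt c W) r hr0
  have hcircR : {z : ℍ | dist z (pt c W) = r ∧ (pt c W).re ≤ z.re} ⊆
      {z : ℍ | dist z (pt c W) = r} := fun z hz => hz.1
  have hcircL : {z : ℍ | dist z (pt c W) = r ∧ z.re ≤ (pt c W).re} ⊆
      {z : ℍ | dist z (pt c W) = r} := fun z hz => hz.1
  have hpreR := induce_preconnected hadjT h.locFin harcR (h.trip1.mono_left hcircR)
  have hpreL := induce_preconnected hadjT h.locFin harcL (h.trip1.mono_left hcircL)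
  -- constancy along connected subgraphs
  have hconst : ∀ (M : Set P) (F : P → ℝ), (∀ p ∈ M, ∀ q ∈ M, (graph P).Adj p q → F p = F q) →
      ∀ p q : M, ((graph P).induce M).Reachable p q → F p = F q := by
    intro M F hF p q hpq
    obtain ⟨w⟩ := hpq
    induction w with
    | nil => rfl
    | cons hadj _ ih =>
      exact (hF _ (Subtype.property _) _ (Subtype.property _) hadj).trans ih
  have hTR : ∀ p q : P, (cell P (p : ℍ) ∩ {z : ℍ | dist z (pt c W) = r ∧ (pt c W).re ≤ z.re}).Nonempty →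
      (cell P (q : ℍ) ∩ {z : ℍ | dist z (pt c W) = r ∧ (pt c W).re ≤ z.re}).Nonempty →
      Θ p - Tp W p = Θ q - Tp W q := by
    intro p q hp hq
    refine hconst _ (fun p => Θ p - Tp W p) ?_ ⟨p, hp⟩ ⟨q, hq⟩ (hpreR _ _)
    intro p hp q hq hpq
    obtain ⟨i1, i2, i3⟩ := hincring p q hpq (hp.mono (inter_subset_inter_right _ hcircR))
      (hq.mono (inter_subset_inter_right _ hcircR))
    obtain ⟨n1, e1⟩ := hR p hp
    obtain ⟨n2, e2⟩ := hR q hq
    obtain ⟨n3, e3⟩ := inc_eq_int c X W (p : ℍ) q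
    have : inc c X W p q - (Tp W q - Tp W p) = 0 := by
      apply int_zero
      · refine ⟨n2 - n1 - n3, ?_⟩
        rw [e3, e1, e2]
        push_cast
        ring
      · rw [abs_le] at i1 i2
        rw [abs_lt]
        constructor <;> linarith
    linarith
  have hTL : ∀ p q : P, (cell P (p : ℍ) ∩ {z : ℍ | dist z (pt c W) = r ∧ z.re ≤ (pt c W).re}).Nonempty →
      (cell P (q : ℍ) ∩ {z : ℍ | dist z (pt c W) = r ∧ z.re ≤ (pt c W).re}).Nonempty →
      Θ p = Θ q := by
    intro p q hp hq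
    refine hconst _ Θ ?_ ⟨p, hp⟩ ⟨q, hq⟩ (hpreL _ _)
    intro p hp q hq hpq
    obtain ⟨i1, i2, i3⟩ := hincring p q hpq (hp.mono (inter_subset_inter_right _ hcircL))
      (hq.mono (inter_subset_inter_right _ hcircL))
    obtain ⟨n1, e1⟩ := hLft p hp
    obtain ⟨n2, e2⟩ := hLft q hq
    obtain ⟨n3, e3⟩ := inc_eq_int c X W (p : ℍ) q
    have : inc c X W p q = 0 := by
      apply int_zero
      · refine ⟨n2 - n1 - n3, ?_⟩
        rw [e3, e1, e2]
        push_cast
        ring
      · refine i1.trans_lt ?_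
        have : 0 < 2 / W := by positivity
        linarith
    linarith
  -- top and bottom
  set zt : ℍ := UpperHalfPlane.mk ⟨c, Real.exp (W / 2 + r)⟩ (Real.exp_pos _) with hzt
  set zb : ℍ := UpperHalfPlane.mk ⟨c, Real.exp (W / 2 - r)⟩ (Real.exp_pos _) with hzb
  have hztd : dist zt (pt c W) = r := dist_top c W r hr0.le
  have hzbd : dist zb (pt c W) = r := dist_bot c W r hr0.le
  have hne : P.Nonempty := ⟨x, x.2⟩
  obtain ⟨pt', hpt', hzt'⟩ := exists_cell h.locFin hne zt
  obtain ⟨pb', hpb', hzb'⟩ := exists_cell h.locFin hne zb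
  have k1 := hTR ⟨pt', hpt'⟩ ⟨pb', hpb'⟩ ⟨zt, hzt', hztd, le_of_eq (by rfl)⟩
    ⟨zb, hzb', hzbd, le_of_eq (by rfl)⟩
  have k2 := hTL ⟨pt', hpt'⟩ ⟨pb', hpb'⟩ ⟨zt, hzt', hztd, le_of_eq (by rfl)⟩
    ⟨zb, hzb', hzbd, le_of_eq (by rfl)⟩
  have k3 : Tp W pt' = 1 := by
    apply Tp_eq_one hW0
    have d1 : dist zt pt' ≤ 1 := h.near_ring (p := ⟨pt', hpt'⟩) hzt' hztd
    have d2 := UpperHalfPlane.dist_log_im_le zt pt'
    rw [Real.dist_eq] at d2
    have d3 : Real.log zt.im = W / 2 + r := by simp [hzt]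
    rw [d3] at d2
    have d4 := (abs_le.1 (d2.trans d1)).2
    linarith
  have k4 : Tp W pb' = 0 := by
    apply Tp_eq_zero hW0
    have d1 : dist zb pb' ≤ 1 := h.near_ring (p := ⟨pb', hpb'⟩) hzb' hzbd
    have d2 := UpperHalfPlane.dist_log_im_le zb pb'
    rw [Real.dist_eq] at d2
    have d3 : Real.log zb.im = W / 2 - r := by simp [hzb]
    rw [d3] at d2
    have d4 := (abs_le.1 (d2.trans d1)).1
    linarith
  simp only [k3, k4] at k1
  linarith

end Conf

end

end HypVoronoi
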