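import Mathlib

/-!
# The hyperbolic Poisson Voronoi graph: definitions

The hyperbolic plane is the upper half-plane of Mathlib with its hyperbolic distance and its
invariant measure `dx dy / y ^ 2`.
-/

open MeasureTheory ProbabilityTheory Set Metric
open scoped UpperHalfPlane ENNReal

namespace HypVoronoi

/-- The Voronoi cell of `p`: the points whose distance to `p` is at most their distance to every
point of `P`. -/
def cell (P : Set ℍ) (p : ℍ) : Set ℍ := {z | ∀ q ∈ P, dist z p ≤ dist z q}

/-- The geodesic segment between `a` and `b`. -/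
def gseg (a b : ℍ) : Set ℍ := {z | dist a z + dist z b = dist a b}

/-- The dual graph of the Voronoi tessellation of `P`: two points of `P` are adjacent when their
cells share a geodesic segment of positive length. -/
def graph (P : Set ℍ) : SimpleGraph P where
  Adj p q := p ≠ q ∧ ∃ a b : ℍ, a ≠ b ∧ gseg a b ⊆ cell P p ∩ cell P q
  symm := ⟨fun _ _ ⟨h, a, b, hab, hs⟩ =>
    ⟨h.symm, a, b, hab, fun _ hz => ⟨(hs hz).2, (hs hz).1⟩⟩⟩
  loopless := ⟨fun p h => h.1 rfl⟩

/-- Locally finite sets of points. -/
def LocFin (P : Set ℍ) : Prop := ∀ K : Set ℍ, IsCompact K → (P ∩ K).Finite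

/-- A Poisson point process on the hyperbolic plane with intensity `lam` times the hyperbolic
area: a random subset `Pt ω` of the hyperbolic plane, almost surely locally finite, such that the
number of points in a Borel set of finite area has the Poisson distribution with mean `lam` times
the area, and such that the numbers of points in disjoint Borel sets are independent. -/
structure IsPoisson {Ω : Type*} [MeasurableSpace Ω] (Pr : Measure Ω) (lam : ℝ)
    (Pt : Ω → Set ℍ) : Prop where
  locFin : ∀ᵐ ω ∂Pr, LocFin (Pt ω)
  measurable_count : ∀ A : Set ℍ, MeasurableSet A → Measurable fun ω => (Pt ω ∩ A).encard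
  count_law : ∀ A : Set ℍ, MeasurableSet A → volume A ≠ ∞ → ∀ n : ℕ,
    Pr {ω | (Pt ω ∩ A).encard = n} =
      ENNReal.ofReal (Real.exp (-(lam * (volume A).toReal)) *
        (lam * (volume A).toReal) ^ n / n.factorial)
  indep : ∀ (ι : Type) (A : ι → Set ℍ), (∀ i, MeasurableSet (A i)) →
    (∀ i j, i ≠ j → Disjoint (A i) (A j)) →
    iIndepFun (fun i ω => (Pt ω ∩ A i).encard) Pr

/-- A walk of a graph is a geodesic when its length is the distance of its endpoints. -/
def IsGeo {V : Type*} {G : SimpleGraph V} {u v : V} (w : G.Walk u v) : Prop :=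
  w.length = G.dist u v

/-- Every vertex of the first walk is at graph distance at most `δ` from some vertex of one of the
two other walks. -/
def SideThin {V : Type*} {G : SimpleGraph V} (δ : ℝ) {x y z x' y' z' : V}
    (a : G.Walk x x') (b : G.Walk y y') (c : G.Walk z z') : Prop :=
  ∀ v ∈ a.support, ∃ u, (u ∈ b.support ∨ u ∈ c.support) ∧ (G.dist v u : ℝ) ≤ δ

/-- A triangle with sides `a`, `b`, `c` is `δ`-thin when each side lies in the closed
`δ`-neighbourhood of the union of the other two sides. -/
def Thin {V : Type*} {G : SimpleGraph V} (δ : ℝ) {x y z : V}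
    (a : G.Walk x y) (b : G.Walk y z) (c : G.Walk z x) : Prop :=
  SideThin δ a b c ∧ SideThin δ b c a ∧ SideThin δ c a b

end HypVoronoi
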