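import Pool.Agent.W852.HV.Geo

/-!
# Choice of the constants and the almost sure statement
-/

open MeasureTheory ProbabilityTheory Set Metric
open scoped UpperHalfPlane ENNReal

namespace HypVoronoi

noncomputable section

/-- constants of the pattern -/
def cW (m : ℕ) : ℝ := 4 * m + 8
/-- constants of the pattern -/
def cρ (m : ℕ) : ℝ := 2 * cW m + 40
/-- constants of the pattern -/
def cX (m : ℕ) : ℝ := 2 * (Real.exp (cW m / 2) * Real.sinh (cρ m + 10)) + 1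
/-- constants of the pattern -/
def cR (m : ℕ) : ℝ := cX m + Real.exp (cW m) + cρ m + 2 * m + 40
/-- the dense region -/
def cD (m : ℕ) : Set ℍ :=
  closedBall (pt 0 (cW m)) (cρ m + 1 / 2) ∪ closedBall (pt (cX m) (cW m)) (cρ m + 1 / 2)

theorem cW_ge (m : ℕ) : 8 ≤ cW m := by
  unfold cW
  have : (0 : ℝ) ≤ m := by positivity
  linarith

theorem cρ_ge (m : ℕ) : 56 ≤ cρ m := by
  unfold cρ
  linarith [cW_ge m]

theorem cX_ge (m : ℕ) : 1 ≤ cX m := by
  unfold cX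
  have : 0 ≤ Real.sinh (cρ m + 10) := Real.sinh_nonneg_iff.2 (by linarith [cρ_ge m])
  have := mul_nonneg (Real.exp_pos (cW m / 2)).le this
  linarith

theorem pt_dist_re {z : ℍ} {x W s : ℝ} (h : dist z (pt x W) ≤ s) :
    |z.re - x| ≤ Real.exp (W / 2) * Real.sinh s := by
  have h1 := UpperHalfPlane.dist_le_iff_dist_coe_center_le.1 h
  refine le_trans ?_ h1
  rw [Complex.dist_eq]
  have := Complex.abs_re_le_norm ((z : ℂ) - ((pt x W).center s : ℂ))
  simpa using this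

theorem dist_le_of_im {z w : ℍ} (hz : 1 ≤ z.im) (hw : 1 ≤ w.im) :
    dist z w ≤ |z.re - w.re| + |z.im - w.im| := by
  refine (UpperHalfPlane.dist_le_dist_coe_div_sqrt z w).trans ?_
  have h1 : 1 ≤ √(z.im * w.im) := by
    rw [Real.one_le_sqrt]
    nlinarith
  have h2 : dist (z : ℂ) w ≤ |z.re - w.re| + |z.im - w.im| := by
    rw [Complex.dist_eq]
    have := Complex.norm_le_abs_re_add_abs_im ((z : ℂ) - (w : ℂ))
    simpa using this
  exact (div_le_self dist_nonneg h1).trans h2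

theorem vadd_pt (c x W : ℝ) : c +ᵥ pt x W = pt (c + x) W := by
  apply UpperHalfPlane.ext
  apply Complex.ext
  · simp [pt]
  · simp [pt]

theorem dist_pts (m : ℕ) (c : ℝ) : dist (pt c (cW m)) (pt (c + cX m) (cW m)) ≤ cX m := by
  have h1 : (1 : ℝ) ≤ Real.exp (cW m / 2) := Real.one_le_exp (by linarith [cW_ge m])
  have := dist_le_of_im (z := pt c (cW m)) (w := pt (c + cX m) (cW m)) h1 h1
  refine this.trans (le_of_eq ?_)
  simp only [pt_re, pt_im, sub_self, abs_zero, add_zero]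
  rw [sub_add_cancel_left, abs_neg, abs_of_nonneg (by linarith [cX_ge m])]

theorem cD_subset (m : ℕ) : cD m ⊆ closedBall (pt 0 (cW m)) (cR m) := by
  have h1 := dist_pts m 0
  rw [zero_add] at h1
  have h2 : 0 < Real.exp (cW m) := Real.exp_pos _
  have h3 : (0 : ℝ) ≤ m := by positivity
  have h4 := cX_ge m
  rintro z (hz | hz)
  · rw [mem_closedBall] at hz ⊢
    unfold cR
    linarith
  · rw [mem_closedBall] at hz ⊢
    have := dist_triangle z (pt (cX m) (cW m)) (pt 0 (cW m))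
    rw [dist_comm (pt (cX m) (cW m))] at this
    unfold cR
    linarith

/-- The pattern of the translated dense discs gives all hypotheses of the deterministic part. -/
theorem conf_of_pattern {P : Set ℍ} (hP : LocFin P) (m K : ℕ) {η c r : ℝ} (hη : 0 < η)
    (hη4 : η ≤ 1 / 4) (hηK : 2 * η * K ≤ cρ m / 4)
    (hcov : ∀ b ∈ ball (pt 0 (cW m)) (cR m), ∃ p ∈ P, dist (c +ᵥ b) p ≤ 1)
    (hdense : ∀ b ∈ interior (cD m), ∃ p ∈ P, dist (c +ᵥ b) p ≤ η)
    (hcount : (P ∩ (fun z : ℍ => c +ᵥ z) '' (closedBall (pt 0 (cW m)) (cR m) \ cD m)).encard ≤ K)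
    (hr1 : cρ m + 2 ≤ r) (hr2 : r ≤ cρ m + 3)
    (ht1 : Disjoint {z : ℍ | dist z (pt c (cW m)) = r} (trip P))
    (ht2 : Disjoint {z : ℍ | dist z (pt (c + cX m) (cW m)) = r} (trip P)) :
    Conf P c (cX m) (cW m) (cρ m) (cR m) r η m K := by
  have hW8 := cW_ge m
  have hρ := cρ_ge m
  have hX1 := cX_ge m
  have hm0 : (0 : ℝ) ≤ m := by positivity
  have hE : 0 < Real.exp (cW m) := Real.exp_pos _
  have hh1 : (1 : ℝ) ≤ Real.exp (cW m / 2) := Real.one_le_exp (by linarith)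
  have hXX : cX m = 2 * (Real.exp (cW m / 2) * Real.sinh (cρ m + 10)) + 1 := rfl
  have hRR : cR m = cX m + Real.exp (cW m) + cρ m + 2 * m + 40 := rfl
  have hpts := dist_pts m c
  have hiso : ∀ b z : ℍ, dist (c +ᵥ b) (c +ᵥ z) = dist b z := fun b z =>
    (UpperHalfPlane.isometry_real_vadd c).dist_eq b z
  have hp1 : pt c (cW m) = c +ᵥ pt 0 (cW m) := by rw [vadd_pt, add_zero]
  have hp2 : pt (c + cX m) (cW m) = c +ᵥ pt (cX m) (cW m) := by rw [vadd_pt]
  have hback : ∀ b : ℍ, c +ᵥ (-c +ᵥ b) = b := fun b => by rw [vadd_vadd]; simp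
  have hd1 : ∀ b : ℍ, dist (-c +ᵥ b) (pt 0 (cW m)) = dist b (pt c (cW m)) := fun b => by
    rw [hp1, ← hiso, hback]
  have hd2 : ∀ b : ℍ, dist (-c +ᵥ b) (pt (cX m) (cW m)) = dist b (pt (c + cX m) (cW m)) :=
    fun b => by rw [hp2, ← hiso, hback]
  refine
    { locFin := hP
      hW := rfl
      hρ := rfl
      hX := by linarith
      hr1 := hr1
      hr2 := hr2
      hη := hη
      hη4 := hη4
      hηK := hηK
      far := by linarith
      o1re := ?_
      o2re := ?_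
      o2R := ?_
      o1R := by linarith
      band := ?_
      cov := ?_
      dense1 := ?_
      dense2 := ?_
      count := ?_
      trip1 := ht1
      trip2 := ht2 }
  · intro z hz
    have := (abs_le.1 (pt_dist_re hz)).2
    linarith
  · intro z hz
    have := (abs_le.1 (pt_dist_re hz)).1
    linarith
  · intro z hz
    have := dist_triangle z (pt (c + cX m) (cW m)) (pt c (cW m))
    rw [dist_comm (pt (c + cX m) (cW m))] at this
    linarith
  · rintro z ⟨⟨h1, h2⟩, h3, h4⟩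
    have hz1 : 1 ≤ z.im := by
      have := Real.exp_le_exp.2 h3
      rwa [Real.exp_log z.im_pos, Real.exp_zero] at this
    have hz2 : z.im ≤ Real.exp (cW m) := by
      have := Real.exp_le_exp.2 h4
      rwa [Real.exp_log z.im_pos] at this
    have hh2 : Real.exp (cW m / 2) ≤ Real.exp (cW m) := Real.exp_le_exp.2 (by linarith)
    have h5 := dist_le_of_im (z := z) (w := pt c (cW m)) hz1 hh1
    rw [pt_re, pt_im] at h5
    have h6 : |z.re - c| ≤ cX m := by
      rw [abs_le]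
      constructor <;> linarith
    have h7 : |z.im - Real.exp (cW m / 2)| ≤ Real.exp (cW m) := by
      rw [abs_le]
      constructor <;> linarith
    linarith
  · intro b hb
    obtain ⟨p, hp, hpd⟩ := hcov (-c +ᵥ b) (by rw [mem_ball, hd1]; exact hb)
    exact ⟨p, hp, by rwa [hback] at hpd⟩
  · intro b hb
    have hin : -c +ᵥ b ∈ interior (cD m) := by
      refine interior_mono subset_union_left (ball_subset_interior_closedBall ?_)
      rw [mem_ball, hd1]
      linarith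
    obtain ⟨p, hp, hpd⟩ := hdense _ hin
    exact ⟨p, hp, by rwa [hback] at hpd⟩
  · intro b hb
    have hin : -c +ᵥ b ∈ interior (cD m) := by
      refine interior_mono subset_union_right (ball_subset_interior_closedBall ?_)
      rw [mem_ball, hd2]
      linarith
    obtain ⟨p, hp, hpd⟩ := hdense _ hin
    exact ⟨p, hp, by rwa [hback] at hpd⟩
  · refine (Set.encard_le_encard ?_).trans hcount
    rintro p ⟨hp, h1, h2, h3⟩
    refine ⟨hp, -c +ᵥ p, ⟨?_, ?_⟩, hback p⟩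
    · rw [mem_closedBall, hd1]
      exact h1
    · rintro (h4 | h4)
      · rw [mem_closedBall, hd1] at h4
        linarith
      · rw [mem_closedBall, hd2] at h4
        linarith

theorem exists_radius {T : Set ℍ} (hT : T.Countable) (o o' : ℍ) (ρ : ℝ) :
    ∃ r : ℝ, ρ + 2 ≤ r ∧ r ≤ ρ + 3 ∧ Disjoint {z : ℍ | dist z o = r} T ∧
      Disjoint {z : ℍ | dist z o' = r} T := by
  have h1 : ((fun z : ℍ => dist z o) '' T ∪ (fun z : ℍ => dist z o') '' T).Countable :=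
    (hT.image _).union (hT.image _)
  have hunc : ¬ (Ioo (ρ + 2) (ρ + 3)).Countable := by
    intro h
    have := h.le_aleph0
    rw [Cardinal.mk_Ioo_real (by linarith)] at this
    exact absurd this (not_le.2 Cardinal.aleph0_lt_continuum)
  obtain ⟨r, hr, hrT⟩ : ∃ r ∈ Ioo (ρ + 2) (ρ + 3),
      r ∉ (fun z : ℍ => dist z o) '' T ∪ (fun z : ℍ => dist z o') '' T := by
    by_contra hcon
    push Not at hcon
    exact hunc (h1.mono hcon)
  refine ⟨r, hr.1.le, hr.2.le, ?_, ?_⟩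
  · rw [Set.disjoint_left]
    intro z hz hzT
    exact hrT (Or.inl ⟨z, hzT, hz⟩)
  · rw [Set.disjoint_left]
    intro z hz hzT
    exact hrT (Or.inr ⟨z, hzT, hz⟩)

/-- The deterministic statement. -/
theorem exists_not_thin (hadj : TaskAdj) (htrip : TaskTrip) (hcompl : TaskCompl)
    (hcell : TaskCell) (harc : TaskArc) {P : Set ℍ} (hP : LocFin P) (x : P) (δ : ℝ) (K : ℕ)
    {η c : ℝ} (hη : 0 < η) (hη4 : η ≤ 1 / 4) (hηK : 2 * η * K ≤ cρ (2 * ⌊δ⌋₊ + 2) / 4)
    (hcov : ∀ b ∈ ball (pt 0 (cW (2 * ⌊δ⌋₊ + 2))) (cR (2 * ⌊δ⌋₊ + 2)),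
      ∃ p ∈ P, dist (c +ᵥ b) p ≤ 1)
    (hdense : ∀ b ∈ interior (cD (2 * ⌊δ⌋₊ + 2)), ∃ p ∈ P, dist (c +ᵥ b) p ≤ η)
    (hcount : (P ∩ (fun z : ℍ => c +ᵥ z) '' (closedBall (pt 0 (cW (2 * ⌊δ⌋₊ + 2)))
      (cR (2 * ⌊δ⌋₊ + 2)) \ cD (2 * ⌊δ⌋₊ + 2))).encard ≤ K)
    (hx : cR (2 * ⌊δ⌋₊ + 2) < dist (x : ℍ) (pt c (cW (2 * ⌊δ⌋₊ + 2)))) :
    ∃ (y z : P) (a : (graph P).Walk x y) (b : (graph P).Walk y z) (c : (graph P).Walk z x),
      IsGeo a ∧ IsGeo b ∧ IsGeo c ∧ ¬ Thin δ a b c := by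
  by_contra hcon
  push Not at hcon
  set m := 2 * ⌊δ⌋₊ + 2 with hm
  obtain ⟨r, hr1, hr2, ht1, ht2⟩ := exists_radius (htrip P hP) (pt c (cW m))
    (pt (c + cX m) (cW m)) (cρ m)
  have hC := conf_of_pattern hP m K hη hη4 hηK hcov hdense hcount hr1 hr2 ht1 ht2
  have hconn := graph_connected hadj htrip hcompl hP ⟨x, x.2⟩
  have hxo : Conf.Outer P c (cX m) (cW m) r x := by
    have h1 := hC.o1R
    refine ⟨⟨x, mem_cell_self P x, by linarith⟩, ⟨x, mem_cell_self P x, ?_⟩⟩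
    by_contra hlt
    rw [not_le] at hlt
    have := hC.o2R x (by linarith)
    linarith
  refine hC.false_of_thin hadj hcell harc hconn (by omega) hxo ?_
  intro v v' hvv a b ha hb t
  refine dist_le_of_thin hconn hvv a b ha hb (hcon v v' a hvv.toWalk b.reverse ha ?_ ?_) t
  · unfold IsGeo
    rw [SimpleGraph.dist_eq_one_iff_adj.2 hvv]
    simp [SimpleGraph.Adj.toWalk]
  · unfold IsGeo
    rw [SimpleGraph.Walk.length_reverse, SimpleGraph.dist_comm]
    exact hb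

/-- The almost sure statement. -/
theorem main (hadj : TaskAdj) (htrip : TaskTrip) (hcompl : TaskCompl)
    (hcell : TaskCell) (harc : TaskArc) (hpat : TaskPattern)
    {Ω : Type} [MeasurableSpace Ω] (Pr : Measure Ω) [IsProbabilityMeasure Pr] (lam : ℝ)
    (hlam : 0 < lam) (Pt : Ω → Set ℍ) (hPt : IsPoisson Pr lam Pt) :
    ∀ᵐ ω ∂Pr, (graph (Pt ω)).Connected ∧ ∀ (x : Pt ω) (δ : ℝ), ∃ (y z : Pt ω)
      (a : (graph (Pt ω)).Walk x y) (b : (graph (Pt ω)).Walk y z) (c : (graph (Pt ω)).Walk z x),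
      IsGeo a ∧ IsGeo b ∧ IsGeo c ∧ ¬ Thin δ a b c := by
  have hDcl : ∀ m, IsClosed (cD m) := fun m => isClosed_closedBall.union isClosed_closedBall
  have hRpos : ∀ m, 0 < cR m := fun m => by
    have := cX_ge m
    have := cρ_ge m
    have : 0 < Real.exp (cW m) := Real.exp_pos _
    have : (0 : ℝ) ≤ m := by positivity
    unfold cR
    linarith
  choose K hK using fun m : ℕ => hpat (pt 0 (cW m)) (cR m) (cD m) (hRpos m) (hDcl m)
    (cD_subset m)
  set η : ℕ → ℝ := fun m => min (1 / 4) (1 / (2 * ((K m : ℝ) + 1))) with hη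
  have hη0 : ∀ m, 0 < η m := fun m => by
    rw [hη]
    exact lt_min (by norm_num) (by positivity)
  have hη4 : ∀ m, η m ≤ 1 / 4 := fun m => min_le_left _ _
  have hηK : ∀ m, 2 * η m * K m ≤ cρ m / 4 := fun m => by
    have h1 : η m ≤ 1 / (2 * ((K m : ℝ) + 1)) := min_le_right _ _
    have h2 : 2 * η m * K m ≤ 2 * (1 / (2 * ((K m : ℝ) + 1))) * K m := by gcongr
    have h3 : 2 * (1 / (2 * ((K m : ℝ) + 1))) * K m ≤ 1 := by
      have h4 : (0 : ℝ) < (K m : ℝ) + 1 := by positivity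
      have h5 : 2 * (1 / (2 * ((K m : ℝ) + 1))) * (K m : ℝ) = (K m : ℝ) / ((K m : ℝ) + 1) := by
        field_simp
      rw [h5, div_le_one h4]
      linarith
    linarith [cρ_ge m]
  choose M hM hae using fun m : ℕ => hK m (η m) (hη0 m)
  have hall : ∀ᵐ ω ∂Pr, ∀ m : ℕ, ∃ᶠ k : ℕ in Filter.atTop,
      (∀ b ∈ ball (pt 0 (cW m)) (cR m), ∃ p ∈ Pt ω, dist (((k : ℝ) * M m) +ᵥ b) p ≤ 1) ∧
      (∀ b ∈ interior (cD m), ∃ p ∈ Pt ω, dist (((k : ℝ) * M m) +ᵥ b) p ≤ η m) ∧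
      (Pt ω ∩ (fun z : ℍ => ((k : ℝ) * M m) +ᵥ z) ''
        (closedBall (pt 0 (cW m)) (cR m) \ cD m)).encard ≤ K m :=
    ae_all_iff.2 fun m => hae m Ω Pr lam Pt hlam hPt
  filter_upwards [hPt.locFin, hall] with ω hloc hω
  have hne : (Pt ω).Nonempty := by
    obtain ⟨k, hk⟩ := (hω 0).exists
    obtain ⟨p, hp, _⟩ := hk.1 (pt 0 (cW 0)) (mem_ball_self (hRpos 0))
    exact ⟨p, hp⟩
  refine ⟨graph_connected hadj htrip hcompl hloc hne, fun x δ => ?_⟩
  set m := 2 * ⌊δ⌋₊ + 2 with hm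
  obtain ⟨k1, hk1⟩ := (hω m).exists
  obtain ⟨k2, hk2, hk12⟩ := Filter.frequently_atTop.1 (hω m) (k1 + 1)
  obtain ⟨k, hk, hkx⟩ : ∃ k : ℕ, ((∀ b ∈ ball (pt 0 (cW m)) (cR m), ∃ p ∈ Pt ω,
      dist (((k : ℝ) * M m) +ᵥ b) p ≤ 1) ∧
      (∀ b ∈ interior (cD m), ∃ p ∈ Pt ω, dist (((k : ℝ) * M m) +ᵥ b) p ≤ η m) ∧
      (Pt ω ∩ (fun z : ℍ => ((k : ℝ) * M m) +ᵥ z) ''
        (closedBall (pt 0 (cW m)) (cR m) \ cD m)).encard ≤ K m) ∧
      cR m < dist (x : ℍ) (pt ((k : ℝ) * M m) (cW m)) := by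
    by_cases h1 : cR m < dist (x : ℍ) (pt ((k1 : ℝ) * M m) (cW m))
    · exact ⟨k1, hk1, h1⟩
    · refine ⟨k2, hk12, ?_⟩
      by_contra h2
      rw [not_lt] at h1 h2
      have h3 := abs_le.1 (pt_dist_re h1)
      have h4 := abs_le.1 (pt_dist_re h2)
      have h5 := hM m
      rw [pt_im] at h5
      have h6 : (k1 : ℝ) + 1 ≤ k2 := by exact_mod_cast hk2
      have h7 : 0 ≤ Real.exp (cW m / 2) * Real.sinh (cR m) :=
        mul_nonneg (Real.exp_pos _).le (Real.sinh_nonneg_iff.2 (hRpos m).le)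
      have h8 : (1 : ℝ) * M m ≤ ((k2 : ℝ) - k1) * M m := by
        apply mul_le_mul_of_nonneg_right _ (by linarith)
        linarith
      linarith [h3.1, h3.2, h4.1, h4.2, h8]
  exact exists_not_thin hadj htrip hcompl hcell harc hloc x δ (K m) (hη0 m) (hη4 m) (hηK m)
    hk.1 hk.2.1 hk.2.2 hkx

end

end HypVoronoi
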