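import Pool.Agent.W852.HV.Core2

/-!
# From thin triangles to ladders, and the choice of the constants
-/

open MeasureTheory ProbabilityTheory Set Metric
open scoped UpperHalfPlane ENNReal

namespace HypVoronoi

theorem dist_getVert_le {V : Type*} {G : SimpleGraph V} (hconn : G.Connected) {x y : V}
    (a : G.Walk x y) (s k : ℕ) : G.dist (a.getVert s) (a.getVert (s + k)) ≤ k := by
  induction k with
  | zero => simp
  | succ k ih =>
    have h1 : G.dist (a.getVert (s + k)) (a.getVert (s + (k + 1))) ≤ 1 := by
      by_cases h : s + k < a.length
      · exact (SimpleGraph.dist_eq_one_iff_adj.2 (a.adj_getVert_succ h)).le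
      · rw [a.getVert_of_length_le (not_lt.1 h), a.getVert_of_length_le (by omega)]
        simp
    exact (hconn.dist_triangle (v := a.getVert (s + k))).trans (by omega)

theorem dist_getVert_abs {V : Type*} {G : SimpleGraph V} (hconn : G.Connected) {x y : V}
    (a : G.Walk x y) (s t d : ℕ) (h1 : s ≤ t + d) (h2 : t ≤ s + d) :
    G.dist (a.getVert s) (a.getVert t) ≤ d := by
  rcases le_total s t with h | h
  · have := dist_getVert_le hconn a s (t - s)
    rw [show s + (t - s) = t by omega] at this
    omega
  · have := dist_getVert_le hconn a t (s - t)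
    rw [show t + (s - t) = s by omega, SimpleGraph.dist_comm] at this
    omega

theorem dist_start {V : Type*} {G : SimpleGraph V} (hconn : G.Connected) {x y : V}
    (a : G.Walk x y) (ha : IsGeo a) {t : ℕ} (ht : t ≤ a.length) :
    G.dist x (a.getVert t) = t ∧ G.dist (a.getVert t) y = a.length - t := by
  have h1 := dist_getVert_abs hconn a 0 t t (by omega) (by omega)
  have h2 := dist_getVert_abs hconn a t a.length (a.length - t) (by omega) (by omega)
  rw [a.getVert_zero] at h1
  rw [a.getVert_length] at h2
  have h3 := hconn.dist_triangle (u := x) (v := a.getVert t) (w := y)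
  have h4 : a.length = G.dist x y := ha
  omega

theorem dist_le_of_thin {V : Type*} {G : SimpleGraph V} (hconn : G.Connected) {δ : ℝ}
    {x v v' : V} (hvv : G.Adj v v') (a : G.Walk x v) (b : G.Walk x v') (ha : IsGeo a)
    (hb : IsGeo b) (hthin : Thin δ a hvv.toWalk b.reverse) (t : ℕ) :
    G.dist (a.getVert t) (b.getVert t) ≤ 2 * ⌊δ⌋₊ + 2 := by
  set d := ⌊δ⌋₊ with hd
  have hvv1 : G.dist v v' = 1 := SimpleGraph.dist_eq_one_iff_adj.2 hvv
  have ha' : a.length = G.dist x v := ha
  have hb' : b.length = G.dist x v' := hb
  have hab : b.length ≤ a.length + 1 := by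
    have := hconn.dist_triangle (u := x) (v := v) (w := v')
    omega
  by_cases ht : t ≤ a.length
  · obtain ⟨u, hu, hud⟩ := hthin.1 (a.getVert t)
      (SimpleGraph.Walk.getVert_mem_support a t)
    have hud' : G.dist (a.getVert t) u ≤ d := Nat.le_floor hud
    have h1 := (dist_start hconn a ha ht).1
    have h2 := (dist_start hconn a ha ht).2
    have hbcase : ∀ s ≤ b.length, G.dist (a.getVert t) (b.getVert s) ≤ d →
        G.dist (a.getVert t) (b.getVert t) ≤ 2 * d + 2 := by
      intro s hs hsd
      have h3 := (dist_start hconn b hb hs).1
      have h4 := hconn.dist_triangle (u := x) (v := a.getVert t) (w := b.getVert s)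
      have h5 := hconn.dist_triangle (u := x) (v := b.getVert s) (w := a.getVert t)
      rw [SimpleGraph.dist_comm (u := b.getVert s)] at h5
      have h6 := dist_getVert_abs hconn b s t d (by omega) (by omega)
      have h7 := hconn.dist_triangle (u := a.getVert t) (v := b.getVert s) (w := b.getVert t)
      omega
    rcases hu with hu | hu
    · rw [SimpleGraph.Adj.toWalk, SimpleGraph.Walk.support_cons, SimpleGraph.Walk.support_nil,
        List.mem_cons, List.mem_singleton] at hu
      rcases hu with rfl | rfl
      · -- u = v
        have h3 : G.dist (b.getVert t) v' ≤ d + 1 := by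
          have := dist_getVert_abs hconn b t b.length (d + 1)
          by_cases htb : t ≤ b.length
          · have h4 := (dist_start hconn b hb htb).2
            omega
          · rw [b.getVert_of_length_le (by omega)]
            simp
        have h4 := hconn.dist_triangle (u := a.getVert t) (v := u) (w := v')
        have h5 := hconn.dist_triangle (u := a.getVert t) (v := v') (w := b.getVert t)
        rw [SimpleGraph.dist_comm (u := v')] at h5
        omega
      · refine hbcase b.length le_rfl ?_
        rw [b.getVert_length]
        exact hud'
    · rw [SimpleGraph.Walk.support_reverse, List.mem_reverse,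
        SimpleGraph.Walk.mem_support_iff_exists_getVert] at hu
      obtain ⟨s, rfl, hs⟩ := hu
      exact hbcase s hs hud'
  · rw [a.getVert_of_length_le (by omega), b.getVert_of_length_le (by omega), hvv1]
    omega

end HypVoronoi
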