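import Pool.Agent.W852.HV.Avoid

/-!
# The height cocycle
-/

open MeasureTheory ProbabilityTheory Set Metric
open scoped UpperHalfPlane ENNReal

namespace HypVoronoi

noncomputable section

/-- The point with real part `x` and imaginary part `exp (W / 2)`. -/
def pt (x W : ℝ) : ℍ := UpperHalfPlane.mk ⟨x, Real.exp (W / 2)⟩ (Real.exp_pos _)

@[simp] theorem pt_re (x W : ℝ) : (pt x W).re = x := rfl
@[simp] theorem pt_im (x W : ℝ) : (pt x W).im = Real.exp (W / 2) := rfl

/-- The truncated logarithmic height. -/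
def Tp (W : ℝ) (z : ℍ) : ℝ := max 0 (min (Real.log z.im / W) 1)

/-- The truncated logarithmic height above the interval `[c, c + X]`, zero elsewhere. -/
def TT (c X W : ℝ) (z : ℍ) : ℝ := if c ≤ z.re ∧ z.re ≤ c + X then Tp W z else 0

/-- The increment of `TT` modulo one. -/
def inc (c X W : ℝ) (p q : ℍ) : ℝ :=
  (TT c X W q - TT c X W p) - (round (TT c X W q - TT c X W p) : ℤ)

/-- `x` is within `ε` of an integer. -/
def nearI (ε x : ℝ) : Prop := ∃ n : ℤ, |x - n| ≤ ε

theorem abs_inc_le {c X W ε : ℝ} {p q : ℍ} (h : nearI ε (TT c X W q - TT c X W p)) :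
    |inc c X W p q| ≤ ε := by
  obtain ⟨n, hn⟩ := h
  exact (round_le _ n).trans hn

theorem inc_self (c X W : ℝ) (p : ℍ) : inc c X W p p = 0 := by
  simp [inc]

theorem nearI_mono {ε ε' x : ℝ} (h : nearI ε x) (hε : ε ≤ ε') : nearI ε' x := by
  obtain ⟨n, hn⟩ := h
  exact ⟨n, hn.trans hε⟩

theorem nearI_add {ε ε' x y : ℝ} (h : nearI ε x) (h' : nearI ε' y) : nearI (ε + ε') (x + y) := by
  obtain ⟨n, hn⟩ := h
  obtain ⟨n', hn'⟩ := h'
  refine ⟨n + n', ?_⟩
  have : x + y - ((n + n' : ℤ) : ℝ) = (x - n) + (y - n') := by push_cast; ring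
  rw [this]
  exact (abs_add_le _ _).trans (add_le_add hn hn')

theorem nearI_neg {ε x : ℝ} (h : nearI ε x) : nearI ε (-x) := by
  obtain ⟨n, hn⟩ := h
  refine ⟨-n, ?_⟩
  have : -x - ((-n : ℤ) : ℝ) = -(x - n) := by push_cast; ring
  rwa [this, abs_neg]

theorem nearI_int {ε : ℝ} (hε : 0 ≤ ε) (n : ℤ) : nearI ε n := ⟨n, by simpa using hε⟩

theorem int_zero {x : ℝ} (h : ∃ n : ℤ, x = n) (hx : |x| < 1) : x = 0 := by
  obtain ⟨n, rfl⟩ := h
  have : |n| < 1 := by exact_mod_cast hx
  have : n = 0 := Int.abs_lt_one_iff.1 this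
  simp [this]

theorem Tp_nonneg (W : ℝ) (z : ℍ) : 0 ≤ Tp W z := le_max_left _ _

theorem Tp_eq_zero {W : ℝ} (hW : 0 < W) {z : ℍ} (h : Real.log z.im ≤ 0) : Tp W z = 0 := by
  unfold Tp
  have : Real.log z.im / W ≤ 0 := div_nonpos_of_nonpos_of_nonneg h hW.le
  exact max_eq_left ((min_le_left _ _).trans this)

theorem Tp_eq_one {W : ℝ} (hW : 0 < W) {z : ℍ} (h : W ≤ Real.log z.im) : Tp W z = 1 := by
  unfold Tp
  have : 1 ≤ Real.log z.im / W := by rwa [le_div_iff₀ hW, one_mul]
  rw [min_eq_right this]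
  simp

theorem Tp_int {W : ℝ} (hW : 0 < W) {z : ℍ} (h : ¬ (0 ≤ Real.log z.im ∧ Real.log z.im ≤ W)) :
    ∃ n : ℤ, Tp W z = n := by
  by_cases h1 : Real.log z.im ≤ 0
  · exact ⟨0, by simpa using Tp_eq_zero hW h1⟩
  · by_cases h2 : W ≤ Real.log z.im
    · exact ⟨1, by simpa using Tp_eq_one hW h2⟩
    · exact (h ⟨by linarith, by linarith⟩).elim

theorem TT_int {c X W : ℝ} (hW : 0 < W) {z : ℍ}
    (h : ¬ ((c ≤ z.re ∧ z.re ≤ c + X) ∧ 0 ≤ Real.log z.im ∧ Real.log z.im ≤ W)) :
    ∃ n : ℤ, TT c X W z = n := by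
  unfold TT
  by_cases h1 : c ≤ z.re ∧ z.re ≤ c + X
  · rw [if_pos h1]
    exact Tp_int hW fun h2 => h ⟨h1, h2⟩
  · rw [if_neg h1]
    exact ⟨0, by simp⟩

theorem Tp_lip {W : ℝ} (hW : 0 < W) (p q : ℍ) : |Tp W q - Tp W p| ≤ dist p q / W := by
  have h1 : |Tp W q - Tp W p| ≤ |Real.log q.im / W - Real.log p.im / W| := by
    unfold Tp
    refine (abs_max_sub_max_le_max _ _ _ _).trans ?_
    rw [sub_self, abs_zero]
    refine max_le (abs_nonneg _) ?_
    refine (abs_min_sub_min_le_max _ _ _ _).trans ?_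
    rw [sub_self, abs_zero]
    exact max_le le_rfl (abs_nonneg _)
  refine h1.trans ?_
  rw [← sub_div, abs_div, abs_of_pos hW]
  gcongr
  have := UpperHalfPlane.dist_log_im_le p q
  rwa [dist_comm, Real.dist_eq] at this

/-- Near a vertical line. -/
theorem dist_corner (p q : ℍ) (c W : ℝ)
    (h : (p.re ≤ c ∧ c ≤ q.re) ∨ (q.re ≤ c ∧ c ≤ p.re))
    (hq : 0 ≤ Real.log q.im) (hq' : Real.log q.im ≤ W) :
    dist q (pt c W) ≤ 2 * dist p q + W / 2 := by
  set r := dist p q with hr
  have hr0 : 0 ≤ r := dist_nonneg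
  have hcosh : 0 < Real.cosh r := Real.cosh_pos _
  set z : ℍ := UpperHalfPlane.mk ⟨c, q.im * Real.cosh r⟩ (mul_pos q.im_pos hcosh) with hz
  have hz1 : dist z q ≤ r := by
    rw [UpperHalfPlane.dist_le_iff_dist_coe_center_le]
    have h1 : dist (p : ℂ) (q.center r) ≤ q.im * Real.sinh r :=
      UpperHalfPlane.dist_le_iff_dist_coe_center_le.1 le_rfl
    refine le_trans ?_ h1
    have h2 : dist (z : ℂ) (q.center r) = |c - q.re| := by
      rw [Complex.dist_of_im_eq]
      · rw [Real.dist_eq]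
        rfl
      · rfl
    rw [h2]
    have h3 : |p.re - q.re| ≤ dist (p : ℂ) (q.center r) := by
      rw [Complex.dist_eq]
      have := Complex.abs_re_le_norm ((p : ℂ) - (q.center r : ℂ))
      simpa using this
    refine le_trans ?_ h3
    rcases h with ⟨h4, h5⟩ | ⟨h4, h5⟩
    · rw [abs_sub_comm c, abs_sub_comm p.re, abs_of_nonneg (by linarith),
        abs_of_nonneg (by linarith)]
      linarith
    · rw [abs_of_nonneg (by linarith), abs_of_nonneg (by linarith)]
      linarith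
  have hz2 : dist z (pt c W) = |Real.log z.im - W / 2| := by
    rw [UpperHalfPlane.dist_of_re_eq (by rfl), pt_im, Real.log_exp, Real.dist_eq]
  have hz3 : |Real.log z.im - Real.log q.im| ≤ r := by
    have := UpperHalfPlane.dist_log_im_le z q
    rw [Real.dist_eq] at this
    linarith
  have h4 : dist q (pt c W) ≤ dist q z + dist z (pt c W) := dist_triangle _ _ _
  rw [dist_comm q z, hz2] at h4
  have h5 : |Real.log z.im - W / 2| ≤ |Real.log z.im - Real.log q.im| + |Real.log q.im - W / 2| :=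
    abs_sub_le _ _ _
  have h6 : |Real.log q.im - W / 2| ≤ W / 2 := by
    rw [abs_le]
    constructor <;> linarith
  linarith

/-- Increments over short hyperbolic distances are small away from the two ends of the band. -/
theorem near_two {c X W ρ : ℝ} (hW : 8 ≤ W) (hρ : W / 2 + 4 < ρ / 4) {p q : ℍ}
    (hpq : dist p q ≤ 2) (hp1 : ρ / 4 ≤ dist p (pt c W)) (hp2 : ρ / 4 ≤ dist p (pt (c + X) W))
    (hq1 : ρ / 4 ≤ dist q (pt c W)) (hq2 : ρ / 4 ≤ dist q (pt (c + X) W)) :
    nearI (2 / W) (TT c X W q - TT c X W p) := by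
  have hW0 : 0 < W := by linarith
  have hε : 0 ≤ 2 / W := by positivity
  by_cases hp : c ≤ p.re ∧ p.re ≤ c + X
  · by_cases hq : c ≤ q.re ∧ q.re ≤ c + X
    · refine ⟨0, ?_⟩
      unfold TT
      rw [if_pos hp, if_pos hq, Int.cast_zero, sub_zero]
      refine (Tp_lip hW0 p q).trans ?_
      gcongr
    · -- p inside, q outside
      have hTq : TT c X W q = 0 := by unfold TT; rw [if_neg hq]
      have hTp : ∃ n : ℤ, TT c X W p = n := by
        refine TT_int hW0 ?_
        rintro ⟨_, h1, h2⟩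
        rw [not_and_or, not_le, not_le] at hq
        rcases hq with hq | hq
        · have := dist_corner q p c W (Or.inl ⟨hq.le, hp.1⟩) h1 h2
          rw [dist_comm q p] at this
          linarith
        · have := dist_corner q p (c + X) W (Or.inr ⟨hp.2, hq.le⟩) h1 h2
          rw [dist_comm q p] at this
          linarith
      obtain ⟨n, hn⟩ := hTp
      rw [hTq, hn]
      have := nearI_int hε (-n)
      simpa using this
  · by_cases hq : c ≤ q.re ∧ q.re ≤ c + X
    · have hTp : TT c X W p = 0 := by unfold TT; rw [if_neg hp]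
      have hTq : ∃ n : ℤ, TT c X W q = n := by
        refine TT_int hW0 ?_
        rintro ⟨_, h1, h2⟩
        rw [not_and_or, not_le, not_le] at hp
        rcases hp with hp | hp
        · have := dist_corner p q c W (Or.inl ⟨hp.le, hq.1⟩) h1 h2
          linarith
        · have := dist_corner p q (c + X) W (Or.inr ⟨hq.2, hp.le⟩) h1 h2
          linarith
      obtain ⟨n, hn⟩ := hTq
      rw [hTp, hn]
      have := nearI_int hε n
      simpa using this
    · have hTp : TT c X W p = 0 := by unfold TT; rw [if_neg hp]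
      have hTq : TT c X W q = 0 := by unfold TT; rw [if_neg hq]
      rw [hTp, hTq]
      have := nearI_int hε 0
      simpa using this

end

end HypVoronoi
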